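import Pool.Agent.Work.MP_7f7c16_ag.Base

set_option autoImplicit false

namespace Pool.Agent.Work.MP_7f7c16_ag

open MvPolynomial

theorem lin0 : lin (LL 4 0) = X 0 := by
  simp [lin, LL, TT, vec, Fin.sum_univ_four]
theorem lin1 : lin (LL 4 1) = X 1 := by
  simp [lin, LL, TT, vec, Fin.sum_univ_four]
theorem lin2 : lin (LL 4 2) = X 2 := by
  simp [lin, LL, TT, vec, Fin.sum_univ_four]
theorem lin3 : lin (LL 4 3) = X 1 - X 2 := by
  simp [lin, LL, TT, vec, Fin.sum_univ_four]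
  ring
theorem lin4 : lin (LL 4 4) = X 2 - X 0 := by
  simp [lin, LL, TT, vec, Fin.sum_univ_four]
  ring
theorem lin5 : lin (LL 4 5) = X 0 - 4 * X 1 := by
  have : (C (4 : ℚ) : R4) = 4 := by
    rw [show (4 : ℚ) = ((4 : ℕ) : ℚ) by norm_num, map_natCast]; norm_num
  simp [lin, LL, TT, vec, Fin.sum_univ_four, this]
  ring
theorem lin6 : lin (LL 4 6) = X 3 := by
  simp [lin, LL, TT, vec, Fin.sum_univ_four]

noncomputable def ell : R4 := X 0 - 4 * X 1 - X 2

noncomputable def bet : Fin 4 → R4 := ![0, -5 * X 1 * X 2, -5 * X 1 * X 2, X 3 * ell]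

theorem bet_D (j : Fin 4) : bet j - X j * ell ∈ PI (LL 4 0) (LL 4 3) := by
  unfold PI
  rw [lin0, lin3, Ideal.mem_span_pair]
  fin_cases j
  · exact ⟨-ell, 0, by simp [bet]; ring⟩
  · exact ⟨-X 1, 4 * X 1, by simp [bet, ell]; ring⟩
  · exact ⟨-X 2, -X 2, by simp [bet, ell]; ring⟩
  · exact ⟨0, 0, by simp [bet]⟩

theorem bet_E (j : Fin 4) : bet j ∈ PI (LL 4 1) (LL 4 4) := by
  unfold PI
  rw [lin1, lin4, Ideal.mem_span_pair]
  fin_cases j
  · exact ⟨0, 0, by simp [bet]⟩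
  · exact ⟨-5 * X 2, 0, by simp [bet]; ring⟩
  · exact ⟨-5 * X 2, 0, by simp [bet]; ring⟩
  · exact ⟨-4 * X 3, -X 3, by simp [bet, ell]; ring⟩

theorem bet_F (j : Fin 4) : bet j ∈ PI (LL 4 2) (LL 4 5) := by
  unfold PI
  rw [lin2, lin5, Ideal.mem_span_pair]
  fin_cases j
  · exact ⟨0, 0, by simp [bet]⟩
  · exact ⟨-5 * X 1, 0, by simp [bet]⟩
  · exact ⟨-5 * X 1, 0, by simp [bet]⟩
  · exact ⟨-X 3, X 3, by simp [bet, ell]; ring⟩

theorem bet_1 (j : Fin 4) : bet j ∈ PI (LL 4 1) (LL 4 6) := by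
  unfold PI
  rw [lin1, lin6, Ideal.mem_span_pair]
  fin_cases j
  · exact ⟨0, 0, by simp [bet]⟩
  · exact ⟨-5 * X 2, 0, by simp [bet]; ring⟩
  · exact ⟨-5 * X 2, 0, by simp [bet]; ring⟩
  · exact ⟨0, ell, by simp [bet]; ring⟩

theorem bet_2 (j : Fin 4) : bet j ∈ PI (LL 4 2) (LL 4 6) := by
  unfold PI
  rw [lin2, lin6, Ideal.mem_span_pair]
  fin_cases j
  · exact ⟨0, 0, by simp [bet]⟩
  · exact ⟨-5 * X 1, 0, by simp [bet]⟩
  · exact ⟨-5 * X 1, 0, by simp [bet]⟩
  · exact ⟨0, ell, by simp [bet]; ring⟩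

theorem rel_of_mem {I : Ideal R4} {c : R4} (h : ∀ j, bet j - X j * c ∈ I) (i j : Fin 4) :
    X i * bet j - X j * bet i ∈ I := by
  have h1 := I.sub_mem (I.mul_mem_left (X i) (h j)) (I.mul_mem_left (X j) (h i))
  have e : X i * (bet j - X j * c) - X j * (bet i - X i * c) = X i * bet j - X j * bet i := by ring
  rw [e] at h1
  exact h1

theorem base_nd : ND (fun i : Fin 4 => (X i : R4)) (JE (LL 4) (EE 7)) := by
  refine ⟨bet, ?_, ?_⟩
  · intro i j
    rw [mem_JE7]
    refine ⟨rel_of_mem bet_D i j, rel_of_mem (c := 0) ?_ i j, rel_of_mem (c := 0) ?_ i j,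
      rel_of_mem (c := 0) ?_ i j, rel_of_mem (c := 0) ?_ i j⟩
    · intro j; simpa using bet_E j
    · intro j; simpa using bet_F j
    · intro j; simpa using bet_1 j
    · intro j; simpa using bet_2 j
  · rintro ⟨b, hb⟩
    have h0 := hb 0
    rw [mem_JE7] at h0
    obtain ⟨-, hE, hF, h1, h2⟩ := h0
    have hprime : ∀ x y : ℕ, x < y → y < 17 → (PI (LL 4 x) (LL 4 y)).IsPrime := good_b.prime
    have key : ∀ x y : ℕ, x < y → y < 17 → lin (LL 4 0) ∉ PI (LL 4 x) (LL 4 y) →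
        bet 0 - X 0 * b ∈ PI (LL 4 x) (LL 4 y) → b ∈ PI (LL 4 x) (LL 4 y) := by
      intro x y hxy hy hn hmem
      have h3 : (X 0 : R4) * b ∈ PI (LL 4 x) (LL 4 y) := by
        have := Ideal.neg_mem_iff _ |>.2 hmem
        simpa [bet] using this
      rcases (hprime x y hxy hy).mem_or_mem h3 with h | h
      · rw [lin0] at hn
        exact absurd h hn
      · exact h
    have bE := key 1 4 (by norm_num) (by norm_num)
      (lin_notMem (det_ne (b := ta) (by decide))) hE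
    have b1 := key 1 6 (by norm_num) (by norm_num)
      (lin_notMem (det_ne (b := ta) (by decide))) h1
    have b2 := key 2 6 (by norm_num) (by norm_num)
      (lin_notMem (det_ne (b := ta) (by decide))) h2
    have hD : ell - b ∈ PI (LL 4 0) (LL 4 3) := by
      have h4 := hb 1
      rw [mem_JE7] at h4
      have h5 := Ideal.sub_mem _ h4.1 (bet_D 1)
      have e : bet 1 - X 1 * b - (bet 1 - X 1 * ell) = X 1 * (ell - b) := by ring
      have h6 : (X 1 : R4) * (ell - b) ∈ PI (LL 4 0) (LL 4 3) := by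
        rw [← e]; exact h5
      rcases (hprime 0 3 (by norm_num) (by norm_num)).mem_or_mem h6 with h | h
      · exfalso
        have hn : lin (LL 4 1) ∉ PI (LL 4 0) (LL 4 3) :=
          lin_notMem (det_ne (b := ta) (by decide))
        rw [lin1] at hn
        exact hn h
      · exact h
    obtain ⟨a1, c1, g1⟩ := lp_of_mem b1
    obtain ⟨a2, c2, g2⟩ := lp_of_mem b2
    obtain ⟨a3, c3, g3⟩ := lp_of_mem bE
    obtain ⟨a4, c4, g4⟩ := lp_of_mem hD
    have lpell : ∀ i, lp i ell = (![1, -4, -1, 0] : Fin 4 → ℚ) i := by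
      intro i
      have : ell = C 1 * lin (![1, -4, -1, 0] : Fin 4 → ℚ) := by
        have h4 : (C (4 : ℚ) : R4) = 4 := by
          rw [show (4 : ℚ) = ((4 : ℕ) : ℚ) by norm_num, map_natCast]; norm_num
        simp [ell, lin, Fin.sum_univ_four, h4]
        ring
      rw [this, lp_mul_lin]
      simp
    have hsub : ∀ i, lp i (ell - b) = lp i ell - lp i b := by
      intro i
      simp [lp]
    have e10 := g1 0
    have e11 := g1 1
    have e12 := g1 2
    have e13 := g1 3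
    have e20 := g2 0
    have e21 := g2 1
    have e22 := g2 2
    have e23 := g2 3
    have e33 := g3 3
    have e41 := g4 1
    have e42 := g4 2
    rw [hsub, lpell] at e41 e42
    simp [LL, TT, vec] at e10 e11 e12 e13 e20 e21 e22 e23 e33 e41 e42
    linarith

end Pool.Agent.Work.MP_7f7c16_ag
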