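import Pool.Agent.Work.MP_7f7c16_ag.Lin

set_option autoImplicit false

namespace Pool.Agent.Work.MP_7f7c16_ag

open MvPolynomial RingTheory.Sequence

theorem smulReg_of_ne_zero {A : Type} [CommRing A] [IsDomain A] {r : A} (hr : r ≠ 0) :
    IsSMulRegular A r := by
  rw [isSMulRegular_iff_right_eq_zero_of_smul]
  intro x hx
  rcases mul_eq_zero.1 hx with h | h
  · exact absurd h hr
  · exact h

theorem exists_wreg (q : Ideal S2) [hq : q.IsPrime] (h : ℕ) (hh : (h : ℕ∞) ≤ q.height)
    (h2 : h ≤ 2) :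
    ∃ rs : List S2, rs.length = h ∧ (∀ r ∈ rs, r ∈ q) ∧ IsWeaklyRegular S2 rs := by
  have hne : 1 ≤ h → q ≠ ⊥ := by
    rintro h1 rfl
    rw [Ideal.height_bot] at hh
    have h0 : (h : ℕ∞) = 0 := le_antisymm hh bot_le
    have h0' : h = 0 := by exact_mod_cast h0
    omega
  interval_cases h
  · exact ⟨[], rfl, by simp, IsWeaklyRegular.nil _ _⟩
  · obtain ⟨r, hr, hr0⟩ := Submodule.exists_mem_ne_zero_of_ne_bot (hne le_rfl)
    refine ⟨[r], rfl, by simpa using hr, ?_⟩
    rw [isWeaklyRegular_singleton_iff]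
    exact smulReg_of_ne_zero hr0
  · obtain ⟨π, hπq, hπ⟩ := Ideal.IsPrime.exists_mem_prime_of_ne_bot hq (hne (by norm_num))
    have hP : (Ideal.span {π} : Ideal S2).IsPrime :=
      (Ideal.span_singleton_prime hπ.ne_zero).2 hπ
    have hle : (Ideal.span {π} : Ideal S2) ≤ q := by
      rw [Ideal.span_singleton_le_iff_mem]; exact hπq
    have hht : (Ideal.span {π} : Ideal S2).height ≤ 1 := by
      apply Ideal.height_le_one_of_isPrincipal_of_mem_minimalPrimes (Ideal.span {π})
      rw [Ideal.minimalPrimes_eq_subsingleton_self]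
      rfl
    have hneq : (Ideal.span {π} : Ideal S2) ≠ q := by
      intro he
      rw [he] at hht
      have h3 : ((2 : ℕ) : ℕ∞) ≤ 1 := le_trans hh hht
      have h4 : (2 : ℕ) ≤ 1 := by exact_mod_cast h3
      omega
    obtain ⟨ρ, hρq, hρ⟩ := SetLike.exists_of_lt (lt_of_le_of_ne hle hneq)
    refine ⟨[π, ρ], rfl, ?_, ?_⟩
    · intro r hr
      simp only [List.mem_cons, List.not_mem_nil, or_false] at hr
      rcases hr with rfl | rfl
      · exact hπq
      · exact hρq
    · rw [isWeaklyRegular_cons_iff, isWeaklyRegular_singleton_iff]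
      refine ⟨smulReg_of_ne_zero hπ.ne_zero, ?_⟩
      refine (isSMulRegular_quotient_iff_mem_of_smul_mem _ _).2 ?_
      intro x hx
      rw [Submodule.mem_smul_pointwise_iff_exists] at hx ⊢
      obtain ⟨y, -, hy⟩ := hx
      have hmem : ρ * x ∈ (Ideal.span {π} : Ideal S2) := by
        rw [Ideal.mem_span_singleton']
        refine ⟨y, ?_⟩
        rw [mul_comm]
        exact hy
      rcases hP.mem_or_mem hmem with h | h
      · exact absurd h hρ
      · obtain ⟨z, hz⟩ := Ideal.mem_span_singleton'.1 h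
        refine ⟨z, trivial, ?_⟩
        rw [← hz, mul_comm]
        rfl

/-- A finite free algebra over `ℚ[x₀,x₁]` is Cohen-Macaulay. -/
theorem cm_of_finite_free {B : Type} [CommRing B] [Algebra S2 B] [Module.Free S2 B]
    [Module.Finite S2 B] (p : Ideal B) [hp : p.IsPrime] :
    ∃ rs : List (Localization.AtPrime p),
      (∀ r ∈ rs, r ∈ IsLocalRing.maximalIdeal (Localization.AtPrime p)) ∧
      RingTheory.Sequence.IsRegular (Localization.AtPrime p) rs ∧
      (rs.length : WithBot ℕ∞) = ringKrullDim (Localization.AtPrime p) := by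
  have hnoeth : IsNoetherianRing B := IsNoetherianRing.of_finite S2 B
  have hint : Algebra.IsIntegral S2 B := inferInstance
  let q : Ideal S2 := p.comap (algebraMap S2 B)
  have hq : q.IsPrime := Ideal.comap_isPrime (algebraMap S2 B) p
  obtain ⟨l, hl, hlen⟩ := Ideal.exists_ltSeries_length_eq_height p
  have hmono : StrictMono (PrimeSpectrum.comap (algebraMap S2 B)) := by
    intro x y hxy
    have h1 : x.asIdeal < y.asIdeal := hxy
    have h2 := Ideal.IsIntegral.comap_lt_comap (R := S2) h1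
    exact h2
  let l' := l.map (PrimeSpectrum.comap (algebraMap S2 B)) hmono
  have hle : (l.length : ℕ∞) ≤ q.height := by
    have h1 : ((⟨q, hq⟩ : PrimeSpectrum S2)).asIdeal.height = Order.height (⟨q, hq⟩ : PrimeSpectrum S2) :=
      PrimeSpectrum.height_eq_orderHeight _
    change (l.length : ℕ∞) ≤ ((⟨q, hq⟩ : PrimeSpectrum S2)).asIdeal.height
    rw [h1]
    have h2 : (l'.length : ℕ∞) ≤ Order.height (⟨q, hq⟩ : PrimeSpectrum S2) := by
      apply Order.length_le_height
      have : l'.last = ⟨q, hq⟩ := by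
        rw [LTSeries.last_map, hl]
        rfl
      rw [this]
    exact h2
  have h2 : l.length ≤ 2 := by
    have h3 : (q.height : WithBot ℕ∞) ≤ ringKrullDim S2 :=
      Ideal.height_le_ringKrullDim_of_ne_top hq.ne_top
    have h4 : ringKrullDim S2 = 2 := by
      rw [MvPolynomial.ringKrullDim_of_isNoetherianRing, ringKrullDim_eq_zero_of_field]
      simp
    rw [h4] at h3
    have h5 : ((l.length : ℕ∞) : WithBot ℕ∞) ≤ ((2 : ℕ) : ℕ∞) :=
      le_trans (WithBot.coe_le_coe.2 hle) h3
    have h6 : (l.length : ℕ∞) ≤ ((2 : ℕ) : ℕ∞) := WithBot.coe_le_coe.1 h5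
    exact Nat.cast_le.1 h6
  obtain ⟨rs, hrs1, hrs2, hrs3⟩ := exists_wreg q l.length hle h2
  have hreg : IsWeaklyRegular B (rs.map (algebraMap S2 B)) := hrs3.of_flat
  have hmem : ∀ r ∈ rs.map (algebraMap S2 B), r ∈ p := by
    intro r hr
    obtain ⟨s, hs, rfl⟩ := List.mem_map.1 hr
    exact hrs2 s hs
  refine ⟨(rs.map (algebraMap S2 B)).map (algebraMap B (Localization.AtPrime p)), ?_, ?_, ?_⟩
  · intro r hr
    obtain ⟨s, hs, rfl⟩ := List.mem_map.1 hr
    exact (IsLocalization.AtPrime.to_map_mem_maximal_iff (Localization.AtPrime p) p s).2 (hmem s hs)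
  · exact hreg.isRegular_of_isLocalization_of_mem (Localization.AtPrime p) p hmem
  · rw [IsLocalization.AtPrime.ringKrullDim_eq_height p (Localization.AtPrime p), List.length_map,
      List.length_map, hrs1, ← hlen]
    rfl

end Pool.Agent.Work.MP_7f7c16_ag
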