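import Pool.Agent.Work.MP_7f7c16_ag.Data

set_option autoImplicit false

namespace Pool.Agent.Work.MP_7f7c16_ag

/-- The arrangement of seventeen planes. -/
def AA (lam : ℤ) : Fin 17 → Fin 4 → ℚ := fun i => LL lam i

/-- The two arrangements have the same dependent quadruples. -/
def chkL : Bool :=
  (List.range 17).all fun d => (List.range d).all fun c => (List.range c).all fun b =>
    (List.range b).all fun a =>
      decide (det4 (TT (-1) a) (TT (-1) b) (TT (-1) c) (TT (-1) d) = 0) ==
        decide (det4 (TT 4 a) (TT 4 b) (TT 4 c) (TT 4 d) = 0)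

theorem chkL_true : chkL = true := by decide +kernel

theorem chkL_spec {a b c d : ℕ} (hab : a < b) (hbc : b < c) (hcd : c < d) (hd : d < 17) :
    (det4 (TT (-1) a) (TT (-1) b) (TT (-1) c) (TT (-1) d) = 0 ↔
      det4 (TT 4 a) (TT 4 b) (TT 4 c) (TT 4 d) = 0) := by
  have h := chkL_true
  unfold chkL at h
  rw [List.all_eq_true] at h
  have h1 := h d (List.mem_range.2 hd)
  rw [List.all_eq_true] at h1
  have h2 := h1 c (List.mem_range.2 hcd)
  rw [List.all_eq_true] at h2
  have h3 := h2 b (List.mem_range.2 hbc)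
  rw [List.all_eq_true] at h3
  have h4 := h3 a (List.mem_range.2 hab)
  rw [beq_iff_eq, decide_eq_decide] at h4
  exact h4

theorem of_eq_rows (lam : ℤ) (e : Fin 4 ↪o Fin 17) :
    (Matrix.of fun i => AA lam (e i)) =
      rows (vec (TT lam (e 0))) (vec (TT lam (e 1))) (vec (TT lam (e 2))) (vec (TT lam (e 3))) := by
  funext i
  fin_cases i <;> rfl

theorem lattices_iso : Nonempty (↥(Lat (AA (-1))) ≃o ↥(Lat (AA 4))) := by
  have h : ∀ (lam : ℤ) (e : Fin 4 ↪o Fin 17), (Matrix.of fun i => AA lam (e i)).det =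
      (det4 (TT lam (e 0)) (TT lam (e 1)) (TT lam (e 2)) (TT lam (e 3)) : ℚ) := by
    intro lam e
    rw [of_eq_rows, det_rows]
  let f0 : Fin 4 → Fin 17 := ![0, 1, 2, 6]
  have hf0 : StrictMono f0 := by decide
  refine lattice_iso_of_det ?_ (OrderEmbedding.ofStrictMono f0 hf0) ?_
  · intro e
    rw [h, h, Int.cast_ne_zero, Int.cast_ne_zero]
    have h01 : e 0 < e 1 := e.strictMono (by decide)
    have h12 : e 1 < e 2 := e.strictMono (by decide)
    have h23 : e 2 < e 3 := e.strictMono (by decide)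
    exact not_congr (chkL_spec (Fin.lt_def.1 h01) (Fin.lt_def.1 h12) (Fin.lt_def.1 h23) (e 3).2)
  · rw [h, Int.cast_ne_zero]
    change det4 (TT (-1) 0) (TT (-1) 1) (TT (-1) 2) (TT (-1) 6) ≠ 0
    decide

end Pool.Agent.Work.MP_7f7c16_ag
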