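import Pool.Agent.Work.MP_7f7c16_ag.Lin

set_option autoImplicit false

namespace Pool.Agent.Work.MP_7f7c16_ag

open MvPolynomial RingTheory.Sequence

theorem exists_sum_X (g : R4) :
    ∃ e : Fin 4 → R4, g = C (constantCoeff g) + ∑ i, e i * X i := by
  induction g using MvPolynomial.induction_on with
  | C a => exact ⟨0, by simp⟩
  | add p q hp hq =>
    obtain ⟨e, he⟩ := hp
    obtain ⟨e', he'⟩ := hq
    refine ⟨e + e', ?_⟩
    rw [map_add, C_add]
    have : ∑ i, (e + e') i * X i = ∑ i, e i * X i + ∑ i, e' i * (X i : R4) := by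
      rw [← Finset.sum_add_distrib]
      refine Finset.sum_congr rfl fun i _ => ?_
      rw [Pi.add_apply, add_mul]
    rw [this]
    linear_combination he + he'
  | mul_X p a _ =>
    refine ⟨Pi.single a p, ?_⟩
    rw [Finset.sum_eq_single a]
    · simp
    · intro b _ hb
      rw [Pi.single_eq_of_ne hb, zero_mul]
    · simp

theorem constantCoeff_psi (c : Matrix (Fin 4) (Fin 4) ℚ) (g : R4) :
    constantCoeff (psi c g) = constantCoeff g := by
  have h : (constantCoeff : S2 →+* ℚ).comp (psi c).toRingHom = (constantCoeff : R4 →+* ℚ) := by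
    apply MvPolynomial.ringHom_ext
    · intro r
      simp [psi, algHom_C, algebraMap_eq]
    · intro i
      simp [psi]
  exact congrArg (fun f => f g) h

open Pointwise in
theorem nd_localization_contra {B A : Type} [CommRing B] [CommRing A] [Algebra B A]
    [IsLocalRing A] (p : Ideal B) [p.IsPrime] [IsLocalization.AtPrime A p]
    (x b : Fin 4 → B) (hx : p = Ideal.span (Set.range x)) (hrel : ∀ i j, x i * b j = x j * b i)
    (r1 r2 : A)
    (h1 : r1 ∈ IsLocalRing.maximalIdeal A)
    (h2 : r2 ∈ IsLocalRing.maximalIdeal A)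
    (hr1 : IsSMulRegular A r1)
    (hr2 : IsSMulRegular (QuotSMulTop r1 A) r2) :
    ∃ θ h : B, θ ∉ p ∧ ∀ j, θ * b j = x j * h := by
  let a : B →+* A := algebraMap B A
  have hmax : IsLocalRing.maximalIdeal A = Ideal.span (Set.range fun i => a (x i)) := by
    have e1 : IsLocalRing.maximalIdeal A = Ideal.map (algebraMap B A) p :=
      (IsLocalization.AtPrime.map_eq_maximalIdeal p A).symm
    have e2 : Ideal.map (algebraMap B A) p
        = Ideal.map (algebraMap B A) (Ideal.span (Set.range x)) := by
      exact congrArg _ hx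
    rw [e1, e2, Ideal.map_span, ← Set.range_comp]
    rfl
  have hgen : ∀ r ∈ IsLocalRing.maximalIdeal A, ∃ e : Fin 4 → A, ∑ i, e i * a (x i) = r := by
    intro r hr
    rw [hmax, Ideal.mem_span_range_iff_exists_fun] at hr
    exact hr
  have hrel' : ∀ i j, a (x i) * a (b j) = a (x j) * a (b i) := by
    intro i j
    rw [← map_mul, ← map_mul, hrel]
  obtain ⟨e, he⟩ := hgen r1 h1
  obtain ⟨e', he'⟩ := hgen r2 h2
  have hxc : ∀ j, a (x j) * (∑ i, e i * a (b i)) = r1 * a (b j) := by
    intro j
    rw [← he, Finset.mul_sum, Finset.sum_mul]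
    refine Finset.sum_congr rfl fun i _ => ?_
    have := hrel' i j
    linear_combination (-e i) * this
  have hr2c : r2 * (∑ i, e i * a (b i)) = r1 * ∑ j, e' j * a (b j) := by
    rw [← he', Finset.sum_mul, Finset.mul_sum]
    refine Finset.sum_congr rfl fun j _ => ?_
    have := hxc j
    linear_combination (e' j) * this
  have hmem : (∑ i, e i * a (b i)) ∈ r1 • (⊤ : Submodule A A) := by
    apply mem_of_isSMulRegular_quotient_of_smul_mem hr2
    rw [Submodule.mem_smul_pointwise_iff_exists]
    exact ⟨∑ j, e' j * a (b j), trivial, hr2c.symm⟩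
  rw [Submodule.mem_smul_pointwise_iff_exists] at hmem
  obtain ⟨β, -, hβ⟩ := hmem
  have hbj : ∀ j, a (b j) = a (x j) * β := by
    intro j
    apply hr1
    change r1 * a (b j) = r1 * (a (x j) * β)
    rw [← hxc j, ← hβ]
    change a (x j) * (r1 * β) = _
    ring
  obtain ⟨⟨β', σ⟩, hσ⟩ := IsLocalization.surj p.primeCompl β
  have hj : ∀ j, ∃ τ : p.primeCompl, (τ : B) * (b j * σ) = τ * (x j * β') := by
    intro j
    rw [← IsLocalization.eq_iff_exists p.primeCompl A]
    rw [map_mul, map_mul]
    change a (b j) * a σ = a (x j) * a β'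
    rw [hbj j]
    have : β * a σ = a β' := hσ
    linear_combination (a (x j)) * this
  choose τ hτ using hj
  refine ⟨(∏ j, (τ j : B)) * σ, (∏ j, (τ j : B)) * β', ?_, ?_⟩
  · have h3 : (∏ j, (τ j : B)) ∈ p.primeCompl := Submonoid.prod_mem _ fun j _ => (τ j).2
    exact (Submonoid.mul_mem _ h3 σ.2)
  · intro j
    rw [← Finset.mul_prod_erase Finset.univ (fun j => (τ j : B)) (Finset.mem_univ j)]
    have := hτ j
    linear_combination (∏ k ∈ Finset.univ.erase j, (τ k : B)) * this

theorem not_cm_of_nd {J : Ideal R4} {s t u v : Fin 4 → ℚ} (hdet : (rows s t u v).det ≠ 0)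
    (hJ : J ≤ PI u v) (hnd : ND (fun i : Fin 4 => (X i : R4)) J)
    (hcm : ∀ (p : Ideal (R4 ⧸ J)) [p.IsPrime],
          ∃ rs : List (Localization.AtPrime p),
            (∀ r ∈ rs, r ∈ IsLocalRing.maximalIdeal (Localization.AtPrime p)) ∧
            RingTheory.Sequence.IsRegular (Localization.AtPrime p) rs ∧
            (rs.length : WithBot ℕ∞) = ringKrullDim (Localization.AtPrime p)) : False := by
  obtain ⟨c, hc⟩ := exists_inv hdet
  have hc' : rows s t u v * c = 1 := mul_eq_one_comm.mp hc
  obtain ⟨β, hβ1, hβ2⟩ := hnd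
  let f : (R4 ⧸ J) →+* S2 := Ideal.Quotient.lift J (psi c).toRingHom
    (fun g hg => (mem_PI_iff hc g).1 (hJ hg))
  have hf : ∀ g, f (Ideal.Quotient.mk J g) = psi c g := fun g => rfl
  have hsurj : Function.Surjective f := by
    intro g
    exact ⟨Ideal.Quotient.mk J (phi s t g), by rw [hf, psi_phi hc']⟩
  let mS : Ideal S2 := RingHom.ker (constantCoeff : S2 →+* ℚ)
  have hmS : mS.IsPrime := RingHom.ker_isPrime _
  have hX0 : (Ideal.span {(X 0 : S2)}).IsPrime :=
    (Ideal.span_singleton_prime (X_ne_zero 0)).2 (X_prime)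
  let p : Ideal (R4 ⧸ J) := mS.comap f
  have hp : p.IsPrime := Ideal.comap_isPrime f mS
  have hp0 : ((⊥ : Ideal S2).comap f).IsPrime := Ideal.comap_isPrime f ⊥
  have hp1 : ((Ideal.span {(X 0 : S2)}).comap f).IsPrime := Ideal.comap_isPrime f _
  have hnoeth : IsNoetherianRing (R4 ⧸ J) := inferInstance
  have hlt : ∀ I I' : Ideal S2, I < I' → I.comap f < I'.comap f := by
    intro I I' h
    refine lt_of_le_of_ne (Ideal.comap_mono h.le) fun he => ?_
    exact h.ne (Ideal.comap_injective_of_surjective f hsurj he)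
  have h01 : (⊥ : Ideal S2).comap f < (Ideal.span {(X 0 : S2)}).comap f := by
    apply hlt
    rw [bot_lt_iff_ne_bot, Ne, Ideal.span_singleton_eq_bot]
    exact X_ne_zero 0
  have h12 : (Ideal.span {(X 0 : S2)}).comap f < p := by
    apply hlt
    refine lt_of_le_of_ne ?_ ?_
    · rw [Ideal.span_singleton_le_iff_mem]
      change constantCoeff (X 0 : S2) = 0
      simp
    · intro he
      have h1 : (X 1 : S2) ∈ mS := by
        change constantCoeff (X 1 : S2) = 0
        simp
      rw [← he, Ideal.mem_span_singleton] at h1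
      have h2 : (X 0 : S2) ∣ X 1 := h1
      rw [MvPolynomial.X_dvd_X] at h2
      simp at h2
  have hht : (2 : ℕ∞) ≤ p.height := by
    have e1 := Ideal.height_add_one_le_of_lt_of_isPrime h01
    have e2 := Ideal.height_add_one_le_of_lt_of_isPrime h12
    calc (2 : ℕ∞) = 0 + 1 + 1 := by norm_num
      _ ≤ ((⊥ : Ideal S2).comap f).height + 1 + 1 := by gcongr; exact bot_le
      _ ≤ ((Ideal.span {(X 0 : S2)}).comap f).height + 1 := by gcongr
      _ ≤ p.height := e2
  obtain ⟨rs, hrs1, hrs2, hrs3⟩ := hcm p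
  have hlen : (2 : ℕ) ≤ rs.length := by
    rw [IsLocalization.AtPrime.ringKrullDim_eq_height p (Localization.AtPrime p)] at hrs3
    have h1 : ((rs.length : ℕ∞) : WithBot ℕ∞) = (p.height : WithBot ℕ∞) := hrs3
    have h2 : (rs.length : ℕ∞) = p.height := WithBot.coe_injective h1
    rw [← h2] at hht
    exact_mod_cast hht
  match rs, hrs1, hrs2, hlen with
  | [], _, _, hlen => simp at hlen
  | [_], _, _, hlen => simp at hlen
  | r1 :: r2 :: rest, hrs1, hrs2, _ =>
    rw [isRegular_cons_iff, isRegular_cons_iff] at hrs2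
    obtain ⟨hr1, hr2, -⟩ := hrs2
    have hpspan : p = Ideal.span (Set.range fun i : Fin 4 => Ideal.Quotient.mk J (X i)) := by
      apply le_antisymm
      · intro m hm
        obtain ⟨g, rfl⟩ := Ideal.Quotient.mk_surjective m
        have hg : constantCoeff g = 0 := by
          have : constantCoeff (psi c g) = 0 := hm
          rwa [constantCoeff_psi] at this
        obtain ⟨e, he⟩ := exists_sum_X g
        rw [hg, C_0, zero_add] at he
        rw [he, map_sum]
        refine Ideal.sum_mem _ fun i _ => ?_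
        rw [map_mul]
        exact Ideal.mul_mem_left _ _ (Ideal.subset_span ⟨i, rfl⟩)
      · rw [Ideal.span_le]
        rintro m ⟨i, rfl⟩
        change constantCoeff (psi c (X i)) = 0
        rw [constantCoeff_psi]
        simp
    have hrel : ∀ i j : Fin 4, Ideal.Quotient.mk J (X i) * Ideal.Quotient.mk J (β j)
        = Ideal.Quotient.mk J (X j) * Ideal.Quotient.mk J (β i) := by
      intro i j
      rw [← map_mul, ← map_mul, Ideal.Quotient.eq]
      exact hβ1 i j
    obtain ⟨θ, h, hθ, hθj⟩ := nd_localization_contra p (fun i => Ideal.Quotient.mk J (X i))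
      (fun i => Ideal.Quotient.mk J (β i)) hpspan hrel r1 r2 (hrs1 r1 (by simp))
      (hrs1 r2 (by simp)) hr1 hr2
    obtain ⟨g, rfl⟩ := Ideal.Quotient.mk_surjective θ
    obtain ⟨h, rfl⟩ := Ideal.Quotient.mk_surjective h
    have hg0 : constantCoeff g ≠ 0 := by
      intro h0
      apply hθ
      change constantCoeff (psi c g) = 0
      rw [constantCoeff_psi, h0]
    have hmem : ∀ j, g * β j - X j * h ∈ J := by
      intro j
      rw [← Ideal.Quotient.eq, map_mul, map_mul]
      exact hθj j
    obtain ⟨e, he⟩ := exists_sum_X g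
    apply hβ2
    refine ⟨C (constantCoeff g)⁻¹ * (h - ∑ i, e i * β i), fun j => ?_⟩
    have hinv : (C (constantCoeff g)⁻¹ : R4) * C (constantCoeff g) = 1 := by
      rw [← C_mul, inv_mul_cancel₀ hg0, C_1]
    have hsum : ∑ i, e i * (X i * β j - X j * β i) ∈ J :=
      Ideal.sum_mem _ fun i _ => J.mul_mem_left _ (hβ1 i j)
    have hexp : ∑ i, e i * (X i * β j - X j * β i)
        = (∑ i, e i * X i) * β j - X j * ∑ i, e i * β i := by
      rw [Finset.sum_mul, Finset.mul_sum, ← Finset.sum_sub_distrib]
      refine Finset.sum_congr rfl fun i _ => ?_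
      ring
    rw [hexp] at hsum
    have key := J.mul_mem_left (C (constantCoeff g)⁻¹) (J.sub_mem (hmem j) hsum)
    have e1 : C (constantCoeff g)⁻¹ * (g * β j - X j * h
        - ((∑ i, e i * X i) * β j - X j * ∑ i, e i * β i))
        = β j - X j * (C (constantCoeff g)⁻¹ * (h - ∑ i, e i * β i)) := by
      linear_combination (C (constantCoeff g)⁻¹ * β j) * he + (β j) * hinv
    rw [e1] at key
    exact key

end Pool.Agent.Work.MP_7f7c16_ag
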