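import Pool.Agent.Work.MP_7f7c16_ag.Lin

set_option autoImplicit false

namespace Pool.Agent.Work.MP_7f7c16_ag

open MvPolynomial

/-- The Jacobian ideal of the product of the linear forms, exactly as in the frozen statement. -/
noncomputable def jac {d : ℕ} (ℓ : Fin d → Fin 4 → ℚ) : Ideal R4 :=
  Ideal.span (Set.range fun i : Fin 4 =>
    MvPolynomial.pderiv (R := ℚ) i
      (∏ a : Fin d, ∑ j : Fin 4,
        (MvPolynomial.C (ℓ a j) * MvPolynomial.X j : MvPolynomial (Fin 4) ℚ)))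

theorem lin_homog (v : Fin 4 → ℚ) : (lin v).IsHomogeneous 1 := by
  unfold lin
  apply IsHomogeneous.sum
  intro j _
  exact isHomogeneous_C_mul_X _ _

theorem pderiv_lin (v : Fin 4 → ℚ) (i : Fin 4) : pderiv i (lin v) = C (v i) := by
  unfold lin
  rw [map_sum, Finset.sum_eq_single i]
  · rw [pderiv_C_mul, pderiv_X_self]
    simp
  · intro b _ hb
    rw [pderiv_C_mul, pderiv_X_of_ne hb]
    simp
  · simp

theorem pderiv_prod_split {d : ℕ} (ℓ : Fin d → Fin 4 → ℚ) (a : Fin d) (i : Fin 4) :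
    pderiv i (∏ b, lin (ℓ b)) = C (ℓ a i) * ∏ b ∈ Finset.univ.erase a, lin (ℓ b)
      + lin (ℓ a) * pderiv i (∏ b ∈ Finset.univ.erase a, lin (ℓ b)) := by
  rw [← Finset.mul_prod_erase Finset.univ (fun b => lin (ℓ b)) (Finset.mem_univ a)]
  rw [Derivation.leibniz, pderiv_lin, smul_eq_mul, smul_eq_mul]
  ring

theorem rad_jac {d : ℕ} (ℓ : Fin d → Fin 4 → ℚ)
    (hind : ∀ a b : Fin d, a ≠ b → (PI (ℓ a) (ℓ b)).IsPrime) (hne : ∀ a, ℓ a ≠ 0) (hd : 0 < d) :
    (jac ℓ).radical = ⨅ (a : Fin d) (b : Fin d) (_ : a ≠ b), PI (ℓ a) (ℓ b) := by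
  have hjac : jac ℓ = Ideal.span (Set.range fun i : Fin 4 => pderiv i (∏ a, lin (ℓ a))) := rfl
  apply le_antisymm
  · refine le_iInf fun a => le_iInf fun b => le_iInf fun hab => ?_
    rw [(hind a b hab).radical_le_iff, hjac, Ideal.span_le]
    rintro _ ⟨i, rfl⟩
    change pderiv i (∏ b, lin (ℓ b)) ∈ PI (ℓ a) (ℓ b)
    rw [pderiv_prod_split ℓ a i]
    refine Ideal.add_mem _ (Ideal.mul_mem_left _ _ ?_) (Ideal.mul_mem_right _ _ (lin_mem_left _ _))
    have hb : b ∈ Finset.univ.erase a := by simp [Ne.symm hab]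
    rw [← Finset.mul_prod_erase _ (fun b => lin (ℓ b)) hb]
    exact Ideal.mul_mem_right _ _ (lin_mem_right _ _)
  · rw [Ideal.radical_eq_sInf]
    refine le_sInf ?_
    rintro P ⟨hJP, hP⟩
    have hder : ∀ i, pderiv i (∏ b, lin (ℓ b)) ∈ P := fun i =>
      hJP (by rw [hjac]; exact Ideal.subset_span ⟨i, rfl⟩)
    -- Euler
    have hF : (∏ b, lin (ℓ b)) ∈ P := by
      have hhom : (∏ b, lin (ℓ b)).IsHomogeneous (∑ _b : Fin d, 1) :=
        IsHomogeneous.prod _ _ _ fun b _ => lin_homog _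
      have he := hhom.sum_X_mul_pderiv
      have hmem : (∑ _b : Fin d, 1) • (∏ b, lin (ℓ b)) ∈ P := by
        rw [← he]
        exact Ideal.sum_mem _ fun i _ => Ideal.mul_mem_left _ _ (hder i)
      have hd' : ((∑ _b : Fin d, 1 : ℕ) : ℚ) ≠ 0 := by
        simp
        omega
      have h2 := Ideal.mul_mem_left P (C ((∑ _b : Fin d, 1 : ℕ) : ℚ)⁻¹) hmem
      have h3 : (C ((∑ _b : Fin d, 1 : ℕ) : ℚ)⁻¹ : R4) * ((∑ _b : Fin d, 1) • (∏ b, lin (ℓ b)))
          = ∏ b, lin (ℓ b) := by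
        rw [nsmul_eq_mul, ← mul_assoc]
        have : (((∑ _b : Fin d, 1 : ℕ) : R4)) = C ((∑ _b : Fin d, 1 : ℕ) : ℚ) := by
          rw [map_natCast]
        rw [this, ← C_mul, inv_mul_cancel₀ hd', C_1, one_mul]
      rw [h3] at h2
      exact h2
    obtain ⟨a, -, ha⟩ := (hP.prod_mem_iff).1 hF
    obtain ⟨i, hi⟩ := Function.ne_iff.1 (hne a)
    have h1 := hder i
    rw [pderiv_prod_split ℓ a i] at h1
    have h2 : C (ℓ a i) * ∏ b ∈ Finset.univ.erase a, lin (ℓ b) ∈ P := by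
      have h3 : lin (ℓ a) * pderiv i (∏ b ∈ Finset.univ.erase a, lin (ℓ b)) ∈ P :=
        Ideal.mul_mem_right _ _ ha
      have := Ideal.sub_mem P h1 h3
      simpa using this
    have h4 : (∏ b ∈ Finset.univ.erase a, lin (ℓ b)) ∈ P := by
      have h5 := Ideal.mul_mem_left P (C (ℓ a i)⁻¹) h2
      rw [← mul_assoc, ← C_mul, inv_mul_cancel₀ hi, C_1, one_mul] at h5
      exact h5
    obtain ⟨b, hb, hbP⟩ := (hP.prod_mem_iff).1 h4
    have hab : a ≠ b := fun h => by simp [h] at hb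
    refine le_trans (iInf_le_of_le a (iInf_le_of_le b (iInf_le_of_le hab le_rfl))) ?_
    unfold PI
    rw [Ideal.span_le]
    rintro x (rfl | rfl)
    · exact ha
    · exact hbP

end Pool.Agent.Work.MP_7f7c16_ag
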