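import Pool.Agent.Work.MP_7f7c16_ag.GoodData

set_option autoImplicit false

namespace Pool.Agent.Work.MP_7f7c16_ag

open MvPolynomial

theorem mem_JE7 {L : ℕ → Fin 4 → ℚ} {f : R4} :
    f ∈ JE L (EE 7) ↔ f ∈ PI (L 0) (L 3) ∧ f ∈ PI (L 1) (L 4) ∧ f ∈ PI (L 2) (L 5) ∧
      f ∈ PI (L 1) (L 6) ∧ f ∈ PI (L 2) (L 6) := by
  rw [mem_JE]
  constructor
  · intro h
    refine ⟨h (0, 3) ?_, h (1, 4) ?_, h (2, 5) ?_, h (1, 6) ?_, h (2, 6) ?_⟩ <;>
      exact mem_EE.2 (Or.inl (by decide))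
  · rintro ⟨h1, h2, h3, h4, h5⟩ p hp
    rw [mem_EE] at hp
    rcases hp with hp | ⟨h6, h7, h8⟩
    · simp only [E0, List.mem_cons, List.not_mem_nil, or_false] at hp
      rcases hp with rfl | rfl | rfl | rfl | rfl
      · exact h1
      · exact h2
      · exact h3
      · exact h4
      · exact h5
    · omega

theorem m0 : PI (LL (-1) 0) (vec mm) = PI (LL (-1) 0) (LL (-1) 3) :=
  PI_eq_of_rel (p := 1) (q := 1) (r := 1) (by norm_num) (by norm_num) (by decide)

theorem m1 : PI (LL (-1) 1) (vec mm) = PI (LL (-1) 1) (LL (-1) 4) :=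
  PI_eq_of_rel (p := 1) (q := 1) (r := -1) (by norm_num) (by norm_num) (by decide)

theorem m2 : PI (LL (-1) 2) (vec mm) = PI (LL (-1) 2) (LL (-1) 5) :=
  PI_eq_of_rel (p := 1) (q := -1) (r := 1) (by norm_num) (by norm_num) (by decide)

theorem base_eq : JE (LL (-1)) (EE 7) =
    QQ (LL (-1)) (LL (-1) 6) {1, 2} ⊓ QQ (LL (-1)) (vec mm) {0, 1, 2} := by
  ext f
  rw [mem_JE7, Submodule.mem_inf, mem_QQ, mem_QQ]
  simp only [Finset.mem_insert, Finset.mem_singleton, forall_eq_or_imp, forall_eq]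
  rw [m0, m1, m2]
  tauto

theorem base_ff [Algebra S2 R4]
    (hs : algebraMap S2 R4 = (phi (vec sg) (vec ta)).toRingHom) :
    FF S2 (JE (LL (-1)) (EE 7)) := by
  have hp6 : ∀ a ∈ ({1, 2} : Finset ℕ), (PI (LL (-1) a) (LL (-1) 6)).IsPrime := by
    intro a ha
    simp only [Finset.mem_insert, Finset.mem_singleton] at ha
    rcases ha with rfl | rfl
    · exact good_a.prime 1 6 (by norm_num) (by norm_num)
    · exact good_a.prime 2 6 (by norm_num) (by norm_num)
  have hn6 : ∀ a ∈ ({1, 2} : Finset ℕ), ∀ b ∈ ({1, 2} : Finset ℕ), a ≠ b →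
      lin (LL (-1) b) ∉ PI (LL (-1) a) (LL (-1) 6) := by
    intro a ha b hb hab
    simp only [Finset.mem_insert, Finset.mem_singleton] at ha hb
    rcases ha with rfl | rfl <;> rcases hb with rfl | rfl
    · exact absurd rfl hab
    · exact lin_notMem (det_ne (b := ta) (by decide))
    · exact lin_notMem (det_ne (b := ta) (by decide))
    · exact absurd rfl hab
  have hf6 : ∀ a ∈ ({1, 2} : Finset ℕ), FF S2 (PI (LL (-1) a) (LL (-1) 6)) := by
    intro a ha
    simp only [Finset.mem_insert, Finset.mem_singleton] at ha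
    rcases ha with rfl | rfl
    · exact PI_ff hs (det_ne (chk1_spec chk1_a (by norm_num) (by norm_num)))
    · exact PI_ff hs (det_ne (chk1_spec chk1_a (by norm_num) (by norm_num)))
  have hdm : ∀ a ∈ ({0, 1, 2} : Finset ℕ), det4 sg ta (TT (-1) a) mm ≠ 0 := by
    decide
  have hpm : ∀ a ∈ ({0, 1, 2} : Finset ℕ), (PI (LL (-1) a) (vec mm)).IsPrime :=
    fun a ha => PI_isPrime (det_ne (hdm a ha))
  have hnm : ∀ a ∈ ({0, 1, 2} : Finset ℕ), ∀ b ∈ ({0, 1, 2} : Finset ℕ), a ≠ b →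
      lin (LL (-1) b) ∉ PI (LL (-1) a) (vec mm) := by
    have hd : ∀ a ∈ ({0, 1, 2} : Finset ℕ), ∀ b ∈ ({0, 1, 2} : Finset ℕ), a ≠ b →
      det4 (TT (-1) b) ta (TT (-1) a) mm ≠ 0 := by decide
    intro a ha b hb hab
    exact lin_notMem (det_ne (hd a ha b hb hab))
  have hfm : ∀ a ∈ ({0, 1, 2} : Finset ℕ), FF S2 (PI (LL (-1) a) (vec mm)) :=
    fun a ha => PI_ff hs (det_ne (hdm a ha))
  have hstep := step_colon (J' := QQ (LL (-1)) (LL (-1) 6) {1, 2})
    (Q := QQ (LL (-1)) (vec mm) {0, 1, 2}) (k := lin (vec mm))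
    (G := ∏ a ∈ ({0, 1, 2} : Finset ℕ), lin (LL (-1) a)) (by
      intro f hf
      rw [mem_QQ] at hf ⊢
      intro a ha
      rcases (hp6 a ha).mem_or_mem (hf a ha) with h | h
      · exfalso
        simp only [Finset.mem_insert, Finset.mem_singleton] at ha
        rcases ha with rfl | rfl
        · exact lin_notMem (det_ne (a := mm) (b := ta) (by decide)) h
        · exact lin_notMem (det_ne (a := mm) (b := ta) (by decide)) h
      · exact h) (by
      rw [mem_QQ]
      intro a ha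
      have ha' : a ∈ ({0, 1, 2} : Finset ℕ) := by
        simp only [Finset.mem_insert, Finset.mem_singleton] at ha ⊢
        tauto
      rw [← Finset.mul_prod_erase _ _ ha']
      exact Ideal.mul_mem_right _ _ (lin_mem_left _ _)) (QQ_eq_span hpm hnm)
  rw [base_eq]
  exact ff_of_colon hstep.1 hstep.2 (QQ_ff hp6 hn6 hf6) (QQ_ff hpm hnm hfm)

/-- the linear part of a polynomial -/
noncomputable def lp (i : Fin 4) (f : R4) : ℚ := constantCoeff (pderiv i f)

theorem lp_add (i : Fin 4) (f g : R4) : lp i (f + g) = lp i f + lp i g := by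
  simp [lp]

theorem lp_mul_lin (i : Fin 4) (f : R4) (v : Fin 4 → ℚ) :
    lp i (f * lin v) = constantCoeff f * v i := by
  have hl : constantCoeff (lin v) = 0 := by
    simp [lin]
  have hd : pderiv i (lin v) = C (v i) := by
    unfold lin
    rw [map_sum, Finset.sum_eq_single i]
    · rw [pderiv_C_mul, pderiv_X_self]
      simp
    · intro b _ hb
      rw [pderiv_C_mul, pderiv_X_of_ne hb]
      simp
    · simp
  unfold lp
  rw [Derivation.leibniz, map_add, smul_eq_mul, smul_eq_mul, map_mul, map_mul, hl, hd]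
  simp

theorem lp_of_mem {f : R4} {u v : Fin 4 → ℚ} (hf : f ∈ PI u v) :
    ∃ a b : ℚ, ∀ i, lp i f = a * u i + b * v i := by
  unfold PI at hf
  rw [Ideal.mem_span_pair] at hf
  obtain ⟨α, β, rfl⟩ := hf
  refine ⟨constantCoeff α, constantCoeff β, fun i => ?_⟩
  rw [lp_add, lp_mul_lin, lp_mul_lin]

end Pool.Agent.Work.MP_7f7c16_ag
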