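import Pool.Agent.Work.MP_7f7c16_ag.Step

set_option autoImplicit false

namespace Pool.Agent.Work.MP_7f7c16_ag

open MvPolynomial

/-- The five lines of the core curve, as pairs of core planes. -/
def E0 : List (ℕ × ℕ) := [(0, 3), (1, 4), (2, 5), (1, 6), (2, 6)]

/-- The core planes through the line killed by the plane `n`. -/
def KK : ℕ → List ℕ
  | 7 => [1, 2, 3]
  | 8 => [0, 2, 4]
  | 9 => [0, 1, 5]
  | 10 => [3, 4]
  | 11 => [3, 5]
  | 12 => [4, 5]
  | 13 => [6, 0]
  | 14 => [6, 3]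
  | 15 => [6, 4]
  | 16 => [6, 5]
  | _ => []

/-- All the lines after the first `n` planes. -/
def EE : ℕ → List (ℕ × ℕ)
  | 0 => E0
  | n + 1 => if 7 ≤ n then EE n ++ (List.range n).map (fun a => (a, n)) else EE n

theorem mem_EE {n : ℕ} {p : ℕ × ℕ} :
    p ∈ EE n ↔ p ∈ E0 ∨ (7 ≤ p.2 ∧ p.2 < n ∧ p.1 < p.2) := by
  induction n with
  | zero => simp [EE]
  | succ n ih =>
    rw [EE]
    split_ifs with h
    · rw [List.mem_append, ih, List.mem_map]
      constructor
      · rintro ((h1 | ⟨h1, h2, h3⟩) | ⟨a, ha, rfl⟩)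
        · exact Or.inl h1
        · exact Or.inr ⟨h1, by omega, h3⟩
        · rw [List.mem_range] at ha
          exact Or.inr ⟨h, by simp, ha⟩
      · rintro (h1 | ⟨h1, h2, h3⟩)
        · exact Or.inl (Or.inl h1)
        · by_cases h4 : p.2 = n
          · refine Or.inr ⟨p.1, ?_, ?_⟩
            · rw [List.mem_range]; omega
            · rw [← h4]
          · exact Or.inl (Or.inr ⟨h1, by omega, h3⟩)
    · rw [ih]
      constructor
      · rintro (h1 | ⟨h1, h2, h3⟩)
        · exact Or.inl h1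
        · exact Or.inr ⟨h1, by omega, h3⟩
      · rintro (h1 | ⟨h1, h2, h3⟩)
        · exact Or.inl h1
        · exact Or.inr ⟨h1, by omega, h3⟩

/-- The properties of the arrangement used in the induction. -/
structure Good (L : ℕ → Fin 4 → ℚ) : Prop where
  prime : ∀ a b, a < b → b < 17 → (PI (L a) (L b)).IsPrime
  exX : ∀ a b, a < b → b < 17 → ∃ i : Fin 4, (X i : R4) ∉ PI (L a) (L b)
  indep : ∀ n, 7 ≤ n → n < 17 → ∀ a b, a < b → b < n → ¬ (a ∈ KK n ∧ b ∈ KK n) →
    lin (L n) ∉ PI (L a) (L b) ∧ lin (L b) ∉ PI (L a) (L n) ∧ lin (L a) ∉ PI (L b) (L n)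
  same : ∀ n, 7 ≤ n → n < 17 → ∀ a ∈ (KK n).tail,
    PI (L a) (L n) = PI (L ((KK n).headD 0)) (L n)
  killed : ∀ a b, a < b → b < 7 → (a, b) ∉ E0 →
    ∃ n, 7 ≤ n ∧ n < 17 ∧ PI (L a) (L b) = PI (L a) (L n)

variable {L : ℕ → Fin 4 → ℚ}

/-- The planes cutting the plane `n` in distinct lines. -/
def ss (n : ℕ) : Finset ℕ := (Finset.range n).filter (fun a => a ∉ (KK n).tail)

theorem mem_ss {n a : ℕ} : a ∈ ss n ↔ a < n ∧ a ∉ (KK n).tail := by
  unfold ss
  rw [Finset.mem_filter, Finset.mem_range]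

theorem KK_lt {n a : ℕ} (h : a ∈ KK n) : a < 7 := by
  unfold KK at h
  split at h <;> simp at h <;> omega

theorem KK_head {n : ℕ} (h7 : 7 ≤ n) (h17 : n < 17) : (KK n).headD 0 ∈ ss n := by
  interval_cases n <;> decide

theorem KK_both {n a b : ℕ} (hab : a ≠ b) (ha : a ∈ ss n) (hb : b ∈ ss n) :
    ¬ (a ∈ KK n ∧ b ∈ KK n) := by
  rintro ⟨h1, h2⟩
  rw [mem_ss] at ha hb
  cases hK : KK n with
  | nil => rw [hK] at h1; simp at h1
  | cons c t =>
    rw [hK] at h1 h2 ha hb
    simp only [List.tail_cons, List.mem_cons] at h1 h2 ha hb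
    rcases h1 with h1 | h1
    · rcases h2 with h2 | h2
      · exact hab (h1.trans h2.symm)
      · exact hb.2 h2
    · exact ha.2 h1

theorem E0_not_both {n : ℕ} (h7 : 7 ≤ n) (h17 : n < 17) :
    ∀ p ∈ E0, p.1 < p.2 ∧ p.2 < 7 ∧ ¬ (p.1 ∈ KK n ∧ p.2 ∈ KK n) := by
  interval_cases n <;> decide

theorem PI_prime' (hL : Good L) {a b : ℕ} (hab : a ≠ b) (ha : a < 17) (hb : b < 17) :
    (PI (L a) (L b)).IsPrime := by
  rcases lt_or_gt_of_ne hab with h | h
  · exact hL.prime a b h hb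
  · rw [PI_comm]; exact hL.prime b a h ha

/-- `J (n+1) = J n ⊓ Q n`. -/
theorem JE_succ (hL : Good L) {n : ℕ} (h7 : 7 ≤ n) (h17 : n < 17) :
    JE L (EE (n + 1)) = JE L (EE n) ⊓ QQ L (L n) (ss n) := by
  ext f
  rw [Submodule.mem_inf, mem_JE, mem_JE, mem_QQ]
  constructor
  · intro h
    refine ⟨fun p hp => h p ?_, fun a ha => ?_⟩
    · rw [mem_EE] at hp ⊢
      rcases hp with h1 | ⟨h1, h2, h3⟩
      · exact Or.inl h1
      · exact Or.inr ⟨h1, by omega, h3⟩
    · refine h (a, n) ?_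
      rw [mem_EE]
      exact Or.inr ⟨h7, by simp, (mem_ss.1 ha).1⟩
  · rintro ⟨h1, h2⟩ p hp
    rw [mem_EE] at hp
    rcases hp with h3 | ⟨h3, h4, h5⟩
    · exact h1 p (mem_EE.2 (Or.inl h3))
    · by_cases hpn : p.2 = n
      · rw [hpn]
        by_cases ht : p.1 ∈ (KK n).tail
        · rw [hL.same n h7 h17 p.1 ht]
          exact h2 _ (KK_head h7 h17)
        · exact h2 p.1 (mem_ss.2 ⟨by omega, ht⟩)
      · exact h1 p (mem_EE.2 (Or.inr ⟨h3, by omega, h5⟩))

theorem step_facts (hL : Good L) {n : ℕ} (h7 : 7 ≤ n) (h17 : n < 17) :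
    (∀ f, lin (L n) * f ∈ JE L (EE n) ⊓ QQ L (L n) (ss n) ↔ f ∈ JE L (EE n)) ∧
    (∀ f, f ∈ QQ L (L n) (ss n) ↔
      ∃ a, f - lin (L n) * a ∈ JE L (EE n) ⊓ QQ L (L n) (ss n)) := by
  refine step_colon (G := ∏ a ∈ ss n, lin (L a)) ?_ ?_ ?_
  · refine JE_colon ?_ ?_
    · intro p hp
      rw [mem_EE] at hp
      rcases hp with h1 | ⟨h1, h2, h3⟩
      · have := E0_not_both h7 h17 p h1
        exact hL.prime _ _ this.1 (by omega)
      · exact hL.prime _ _ h3 (by omega)
    · intro p hp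
      rw [mem_EE] at hp
      rcases hp with h1 | ⟨h1, h2, h3⟩
      · have := E0_not_both h7 h17 p h1
        exact (hL.indep n h7 h17 p.1 p.2 this.1 (by omega) this.2.2).1
      · refine (hL.indep n h7 h17 p.1 p.2 h3 h2 ?_).1
        rintro ⟨-, h4⟩
        have := KK_lt h4
        omega
  · rw [mem_JE]
    intro p hp
    rw [mem_EE] at hp
    have key : (p.1 ∈ ss n ∨ p.2 ∈ ss n) → (∏ a ∈ ss n, lin (L a)) ∈ PI (L p.1) (L p.2) := by
      rintro (h | h)
      · rw [← Finset.mul_prod_erase (ss n) _ h]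
        exact Ideal.mul_mem_right _ _ (lin_mem_left _ _)
      · rw [← Finset.mul_prod_erase (ss n) _ h]
        exact Ideal.mul_mem_right _ _ (lin_mem_right _ _)
    apply key
    rcases hp with h1 | ⟨h1, h2, h3⟩
    · have h0 := E0_not_both h7 h17 p h1
      by_contra hcon
      push Not at hcon
      apply h0.2.2
      constructor
      · by_contra hc
        exact hcon.1 (mem_ss.2 ⟨by omega, fun ht => hc (List.mem_of_mem_tail ht)⟩)
      · by_contra hc
        exact hcon.2 (mem_ss.2 ⟨by omega, fun ht => hc (List.mem_of_mem_tail ht)⟩)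
    · right
      rw [mem_ss]
      refine ⟨h2, fun ht => ?_⟩
      have := KK_lt (List.mem_of_mem_tail ht)
      omega
  · apply QQ_eq_span
    · intro a ha
      exact hL.prime _ _ (mem_ss.1 ha).1 h17
    · intro a ha b hb hab
      have h1 := KK_both hab ha hb
      have ha' := (mem_ss.1 ha).1
      have hb' := (mem_ss.1 hb).1
      rcases lt_or_gt_of_ne hab with h | h
      · exact (hL.indep n h7 h17 a b h hb' h1).2.1
      · exact (hL.indep n h7 h17 b a h ha' (fun h => h1 ⟨h.2, h.1⟩)).2.2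

theorem chain_ff (hL : Good L) {S : Type} [CommRing S] [Algebra S R4]
    (hff : ∀ a b, a < b → b < 17 → FF S (PI (L a) (L b)))
    (hbase : FF S (JE L (EE 7))) : ∀ n, 7 ≤ n → n ≤ 17 → FF S (JE L (EE n)) := by
  intro n h7
  induction n, h7 using Nat.le_induction with
  | base => intro _; exact hbase
  | succ n h7 ih =>
    intro h17
    have hn : n < 17 := by omega
    have hf := step_facts hL h7 hn
    rw [JE_succ hL h7 hn]
    refine ff_of_colon hf.1 hf.2 (ih (by omega)) ?_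
    apply QQ_ff
    · intro a ha
      exact hL.prime _ _ (mem_ss.1 ha).1 hn
    · intro a ha b hb hab
      have h1 := KK_both hab ha hb
      have ha' := (mem_ss.1 ha).1
      have hb' := (mem_ss.1 hb).1
      rcases lt_or_gt_of_ne hab with h | h
      · exact (hL.indep n h7 hn a b h hb' h1).2.1
      · exact (hL.indep n h7 hn b a h ha' (fun h => h1 ⟨h.2, h.1⟩)).2.2
    · intro a ha
      exact hff _ _ (mem_ss.1 ha).1 hn

theorem chain_nd (hL : Good L)
    (hbase : ND (fun i : Fin 4 => (X i : R4)) (JE L (EE 7))) :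
    ∀ n, 7 ≤ n → n ≤ 17 → ND (fun i : Fin 4 => (X i : R4)) (JE L (EE n)) := by
  intro n h7
  induction n, h7 using Nat.le_induction with
  | base => intro _; exact hbase
  | succ n h7 ih =>
    intro h17
    have hn : n < 17 := by omega
    have hf := step_facts hL h7 hn
    rw [JE_succ hL h7 hn]
    refine nd_of_colon hf.1 hf.2 ?_ (ih (by omega))
    intro f hX
    refine QQ_sat ?_ ?_ f hX
    · intro a ha
      exact hL.prime _ _ (mem_ss.1 ha).1 hn
    · intro a ha
      exact hL.exX _ _ (mem_ss.1 ha).1 hn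

/-- The final ideal is the intersection over all pairs of distinct planes. -/
theorem JE_final (hL : Good L) :
    JE L (EE 17) = ⨅ (a : Fin 17) (b : Fin 17) (_ : a ≠ b), PI (L a) (L b) := by
  ext f
  simp only [Submodule.mem_iInf]
  rw [mem_JE]
  constructor
  · intro h
    have hlt : ∀ a b : ℕ, a < b → b < 17 → f ∈ PI (L a) (L b) := by
      intro a b hab hb
      by_cases h7 : 7 ≤ b
      · exact h (a, b) (mem_EE.2 (Or.inr ⟨h7, hb, hab⟩))
      · by_cases hE : (a, b) ∈ E0
        · exact h (a, b) (mem_EE.2 (Or.inl hE))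
        · obtain ⟨n, hn7, hn17, he⟩ := hL.killed a b hab (by omega) hE
          rw [he]
          refine h (a, n) (mem_EE.2 (Or.inr ⟨hn7, hn17, ?_⟩))
          change a < n
          omega
    intro a b hab
    rcases lt_or_gt_of_ne (fun e => hab (Fin.ext e) : (a : ℕ) ≠ b) with h1 | h1
    · exact hlt a b h1 b.2
    · rw [PI_comm]; exact hlt b a h1 a.2
  · intro h p hp
    rw [mem_EE] at hp
    have hp' : p.1 < p.2 ∧ p.2 < 17 := by
      rcases hp with h1 | ⟨h1, h2, h3⟩
      · have := E0_not_both (n := 7) le_rfl (by norm_num) p h1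
        omega
      · exact ⟨h3, h2⟩
    exact h ⟨p.1, by omega⟩ ⟨p.2, hp'.2⟩ (fun e => by
      have := congrArg Fin.val e
      simp at this
      omega)

end Pool.Agent.Work.MP_7f7c16_ag
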