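import Mathlib

set_option autoImplicit false

namespace Pool.Agent.Work.MP_7f7c16_ag

open MvPolynomial

section FF

variable {S R : Type} [CommRing S] [CommRing R] [Algebra S R]

/-- `R ⧸ I` is a finite free `S`-module. -/
def FF (S : Type) {R : Type} [CommRing S] [CommRing R] [Algebra S R] (I : Ideal R) : Prop :=
  Module.Free S (R ⧸ I) ∧ Module.Finite S (R ⧸ I)

theorem ff_top : FF S (⊤ : Ideal R) := by
  have : Subsingleton (R ⧸ (⊤ : Ideal R)) := Ideal.Quotient.subsingleton_iff.mpr rfl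
  exact ⟨Module.Free.of_subsingleton _ _, inferInstance⟩

/-- The short exact sequence `0 → R/(J : k) → R/J → R/(J + (k)) → 0`. -/
theorem ff_of_colon {I J K : Ideal R} {k : R} (hI : ∀ f, k * f ∈ J ↔ f ∈ I)
    (hK : ∀ f, f ∈ K ↔ ∃ a, f - k * a ∈ J) (h1 : FF S I) (h2 : FF S K) : FF S J := by
  obtain ⟨hf1, hg1⟩ := h1
  obtain ⟨hf2, hg2⟩ := h2
  have hJK : J ≤ K := fun f hf => (hK f).2 ⟨0, by simpa using hf⟩
  have hle : I ≤ Submodule.comap (LinearMap.mulLeft R k) J := fun f hf => (hI f).2 hf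
  have hle2 : J ≤ Submodule.comap (LinearMap.id : R →ₗ[R] R) K := fun f hf => hJK hf
  let α : (R ⧸ I) →ₗ[R] (R ⧸ J) := Submodule.mapQ I J (LinearMap.mulLeft R k) hle
  let β : (R ⧸ J) →ₗ[R] (R ⧸ K) := Submodule.mapQ J K LinearMap.id hle2
  have α_mk : ∀ f : R, α (Submodule.Quotient.mk f) = Submodule.Quotient.mk (k * f) := fun f => rfl
  have β_mk : ∀ f : R, β (Submodule.Quotient.mk f) = Submodule.Quotient.mk f := fun f => rfl
  have hα : Function.Injective α := by
    rw [← LinearMap.ker_eq_bot, LinearMap.ker_eq_bot']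
    intro m hm
    obtain ⟨f, rfl⟩ := Submodule.Quotient.mk_surjective _ m
    rw [α_mk] at hm
    exact (Submodule.Quotient.mk_eq_zero I).2 ((hI f).1 ((Submodule.Quotient.mk_eq_zero J).1 hm))
  have hβ : Function.Surjective β := by
    intro m
    obtain ⟨f, rfl⟩ := Submodule.Quotient.mk_surjective _ m
    exact ⟨Submodule.Quotient.mk f, β_mk f⟩
  have hex : ∀ m, β m = 0 ↔ ∃ n, α n = m := by
    intro m
    obtain ⟨f, rfl⟩ := Submodule.Quotient.mk_surjective _ m
    rw [β_mk]
    constructor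
    · intro h
      have h' : f ∈ K := (Submodule.Quotient.mk_eq_zero K).1 h
      obtain ⟨a, ha⟩ := (hK f).1 h'
      refine ⟨Submodule.Quotient.mk a, ?_⟩
      rw [α_mk]
      refine (Submodule.Quotient.eq J).2 ?_
      have := J.neg_mem ha
      simpa using this
    · rintro ⟨n, hn⟩
      obtain ⟨a, rfl⟩ := Submodule.Quotient.mk_surjective _ n
      rw [α_mk] at hn
      have h' : f - k * a ∈ J := (Submodule.Quotient.eq J).1 hn.symm
      exact (Submodule.Quotient.mk_eq_zero K).2 ((hK f).2 ⟨a, h'⟩)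
  let α' : (R ⧸ I) →ₗ[S] (R ⧸ J) := α.restrictScalars S
  let β' : (R ⧸ J) →ₗ[S] (R ⧸ K) := β.restrictScalars S
  have hexact : Function.Exact α' β' := by
    intro m
    constructor
    · intro h
      obtain ⟨n, hn⟩ := (hex m).1 h
      exact ⟨n, hn⟩
    · rintro ⟨n, hn⟩
      exact (hex m).2 ⟨n, hn⟩
  obtain ⟨l, hl⟩ := Module.projective_lifting_property β' LinearMap.id hβ
  have e : (R ⧸ J) ≃ₗ[S] (R ⧸ I) × (R ⧸ K) := by
    have hαi : Function.Injective α' := hα
    exact ((hexact.splitSurjectiveEquiv hαi) ⟨l, hl⟩).1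
  constructor
  · exact Module.Free.of_equiv e.symm
  · exact Module.Finite.equiv e.symm

end FF

section ND

variable {R : Type} [CommRing R] {n : ℕ}

/-- There is an `R`-linear map from the ideal generated by `x 0, …, x (n-1)` to `R/J`, given
on generators, which is not multiplication by an element of `R/J`. -/
def ND (x : Fin n → R) (J : Ideal R) : Prop :=
  ∃ β : Fin n → R, (∀ i j, x i * β j - x j * β i ∈ J) ∧ ¬ ∃ b, ∀ j, β j - x j * b ∈ J

theorem nd_of_colon {x : Fin n → R} {I J K : Ideal R} {k : R} (hI : ∀ f, k * f ∈ J ↔ f ∈ I)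
    (hK : ∀ f, f ∈ K ↔ ∃ a, f - k * a ∈ J) (hKm : ∀ f, (∀ i, x i * f ∈ K) → f ∈ K)
    (h : ND x I) : ND x J := by
  obtain ⟨β, h1, h2⟩ := h
  refine ⟨fun j => k * β j, ?_, ?_⟩
  · intro i j
    have h := (hI _).2 (h1 i j)
    have e : k * (x i * β j - x j * β i) = x i * (k * β j) - x j * (k * β i) := by ring
    rw [e] at h
    exact h
  · rintro ⟨b, hb⟩
    have hbK : b ∈ K := by
      apply hKm
      intro i
      rw [hK]
      refine ⟨β i, ?_⟩
      have h := J.neg_mem (hb i)
      have e : -(k * β i - x i * b) = x i * b - k * β i := by ring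
      rw [e] at h
      exact h
    obtain ⟨c, hc⟩ := (hK b).1 hbK
    apply h2
    refine ⟨c, fun j => ?_⟩
    rw [← hI]
    have h3 := J.add_mem (hb j) (J.mul_mem_left (x j) hc)
    have e : (k * β j - x j * b) + x j * (b - k * c) = k * (β j - x j * c) := by ring
    rw [e] at h3
    exact h3

end ND

end Pool.Agent.Work.MP_7f7c16_ag
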