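import Mathlib

set_option autoImplicit false

namespace Pool.Agent.Work.MP_7f7c16_ag

open Submodule

section matroid

variable {d : ℕ}

theorem det_iff {v : Fin d → Fin 4 → ℚ} (e : Fin 4 ↪o Fin d) :
    LinearIndepOn ℚ v (Set.range e) ↔ (Matrix.of fun i => v (e i)).det ≠ 0 := by
  rw [linearIndepOn_range_iff e.injective]
  have h := Matrix.linearIndependent_rows_iff_isUnit (K := ℚ) (A := Matrix.of fun i => v (e i))
  rw [Matrix.isUnit_iff_isUnit_det, isUnit_iff_ne_zero] at h
  exact h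

theorem ncard_four {v : Fin d → Fin 4 → ℚ} {b : Set (Fin d)} (hb : LinearIndepOn ℚ v b)
    (hspan : span ℚ (v '' b) = ⊤) : ∃ e : Fin 4 ↪o Fin d, Set.range e = b := by
  classical
  have hfin : b.Finite := Set.toFinite b
  let B : Finset (Fin d) := hfin.toFinset
  have hB : (B : Set (Fin d)) = b := hfin.coe_toFinset
  have hcard : B.card = 4 := by
    have h1 : LinearIndependent ℚ (fun x : b => v x) := hb
    have h2 : span ℚ (Set.range (fun x : b => v x)) = ⊤ := by
      rw [← hspan]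
      congr 1
      ext y
      simp
    let bas := Module.Basis.mk h1 h2.ge
    have h3 := Module.finrank_eq_card_basis bas
    rw [Module.finrank_fin_fun] at h3
    have hc : B.card = Fintype.card ↑b := by
      rw [← Set.toFinset_card]
      congr 1
      ext x
      rw [Set.Finite.mem_toFinset, Set.mem_toFinset]
    rw [hc, ← h3]
  refine ⟨B.orderEmbOfFin hcard, ?_⟩
  rw [Finset.range_orderEmbOfFin, hB]

variable {v w : Fin d → Fin 4 → ℚ}

theorem indep_transfer
    (hdet : ∀ e : Fin 4 ↪o Fin d, (Matrix.of fun i => v (e i)).det ≠ 0 →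
      (Matrix.of fun i => w (e i)).det ≠ 0)
    (hspan : span ℚ (Set.range v) = ⊤) {B : Set (Fin d)} (hB : LinearIndepOn ℚ v B) :
    LinearIndepOn ℚ w B := by
  obtain ⟨b, -, hBb, hb, hli⟩ := exists_linearIndepOn_extension hB (Set.subset_univ B)
  have hs : span ℚ (v '' b) = ⊤ := by
    rw [eq_top_iff, ← hspan, span_le, ← Set.image_univ]
    exact hb
  obtain ⟨e, he⟩ := ncard_four hli hs
  rw [← he, det_iff] at hli
  have h2 := hdet e hli
  rw [← det_iff, he] at h2
  exact h2.mono hBb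

theorem span_transfer
    (hiff : ∀ B : Set (Fin d), LinearIndepOn ℚ v B ↔ LinearIndepOn ℚ w B)
    {S : Set (Fin d)} {i : Fin d} (h : v i ∈ span ℚ (v '' S)) : w i ∈ span ℚ (w '' S) := by
  by_contra hwi
  obtain ⟨B, hBS, -, hSB, hBli⟩ := exists_linearIndepOn_extension
    (linearIndepOn_empty ℚ w) (Set.empty_subset S)
  have hspanB : span ℚ (w '' B) = span ℚ (w '' S) :=
    le_antisymm (span_mono (Set.image_mono hBS)) (span_le.2 hSB)
  have hwiB : w i ∉ span ℚ (w '' B) := by rwa [hspanB]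
  have hins : LinearIndepOn ℚ w (insert i B) := hBli.insert hwiB
  have hvins := (hiff _).2 hins
  have hiB : i ∉ B := fun hi => hwiB (subset_span ⟨i, hi, rfl⟩)
  have hvB : LinearIndepOn ℚ v B := (hiff _).2 hBli
  have hviB : v i ∉ span ℚ (v '' B) := hvins.notMem_span_of_insert hiB
  apply hviB
  have hall : ∀ j ∈ S, v j ∈ span ℚ (v '' B) := by
    intro j hj
    by_contra hvj
    have h1 : LinearIndepOn ℚ v (insert j B) := hvB.insert hvj
    have h2 := (hiff _).1 h1
    have hjB : j ∉ B := fun hj' => hvj (subset_span ⟨j, hj', rfl⟩)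
    have h3 : w j ∉ span ℚ (w '' B) := h2.notMem_span_of_insert hjB
    exact h3 (hSB ⟨j, hj, rfl⟩)
  have hle : span ℚ (v '' S) ≤ span ℚ (v '' B) := by
    rw [span_le]
    rintro _ ⟨j, hj, rfl⟩
    exact hall j hj
  exact hle h

end matroid

section lattice

/-- the solution set of the equations indexed by `S` -/
def VS {d : ℕ} (ℓ : Fin d → Fin 4 → ℚ) (S : Finset (Fin d)) : Set (Fin 4 → ℚ) :=
  {x : Fin 4 → ℚ | ∀ i ∈ S, ∑ j : Fin 4, ℓ i j * x j = 0}

theorem VS_subset_iff {d : ℕ} (ℓ : Fin d → Fin 4 → ℚ) (S : Finset (Fin d)) (i : Fin d) :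
    (∀ x ∈ VS ℓ S, ∑ j : Fin 4, ℓ i j * x j = 0) ↔ ℓ i ∈ span ℚ (ℓ '' S) := by
  constructor
  · intro h
    let L : Fin d → ((Fin 4 → ℚ) →ₗ[ℚ] ℚ) := fun s => ∑ j, ℓ s j • LinearMap.proj j
    have hL : ∀ s x, L s x = ∑ j, ℓ s j * x j := by
      intro s x
      simp [L, LinearMap.sum_apply]
    have h1 : L i ∈ span ℚ (Set.range fun s : S => L s) := by
      apply mem_span_of_iInf_ker_le_ker
      intro x hx
      rw [Submodule.mem_iInf] at hx
      rw [LinearMap.mem_ker, hL]
      apply h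
      intro s hs
      have := hx ⟨s, hs⟩
      rw [LinearMap.mem_ker, hL] at this
      exact this
    obtain ⟨c, hc⟩ := (mem_span_range_iff_exists_fun ℚ).1 h1
    have h2 : ℓ i = ∑ s : S, c s • ℓ s := by
      funext k
      have h3 := congrArg (fun f => f (Pi.single k 1)) hc
      simp only [LinearMap.sum_apply, LinearMap.smul_apply, hL] at h3
      have h4 : ∀ s, ∑ j, ℓ s j * (Pi.single k (1 : ℚ) : Fin 4 → ℚ) j = ℓ s k := by
        intro s
        rw [Finset.sum_eq_single k]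
        · simp
        · intro b _ hb
          rw [Pi.single_eq_of_ne hb, mul_zero]
        · simp
      simp only [h4] at h3
      rw [← h3]
      simp
    rw [h2]
    refine Submodule.sum_mem _ fun s _ => Submodule.smul_mem _ _ (subset_span ⟨s, s.2, rfl⟩)
  · intro h x hx
    have : ∀ y ∈ span ℚ (ℓ '' S), ∑ j, y j * x j = 0 := by
      intro y hy
      induction hy using Submodule.span_induction with
      | mem y hy =>
        obtain ⟨s, hs, rfl⟩ := hy
        exact hx s hs
      | zero => simp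
      | add y z _ _ hy hz =>
        simp only [Pi.add_apply, add_mul, Finset.sum_add_distrib, hy, hz, add_zero]
      | smul c y _ hy =>
        simp only [Pi.smul_apply, smul_eq_mul, mul_assoc, ← Finset.mul_sum, hy, mul_zero]
    exact this _ h

/-- The intersection lattice, as in the frozen statement. -/
def Lat {d : ℕ} (ℓ : Fin d → Fin 4 → ℚ) : Set (Set (Fin 4 → ℚ)) :=
  {W : Set (Fin 4 → ℚ) | ∃ S : Finset (Fin d),
    W = {x : Fin 4 → ℚ | ∀ i ∈ S, ∑ j : Fin 4, ℓ i j * x j = 0}}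

theorem VS_le_iff {d : ℕ} (ℓ : Fin d → Fin 4 → ℚ) (S T : Finset (Fin d)) :
    VS ℓ S ⊆ VS ℓ T ↔ ∀ i ∈ T, ℓ i ∈ span ℚ (ℓ '' S) := by
  constructor
  · intro h i hi
    rw [← VS_subset_iff]
    intro x hx
    exact h hx i hi
  · intro h x hx i hi
    exact (VS_subset_iff ℓ S i).2 (h i hi) x hx

theorem lattice_iso {d : ℕ} {v w : Fin d → Fin 4 → ℚ}
    (h : ∀ (S : Finset (Fin d)) (i : Fin d),
      v i ∈ span ℚ (v '' S) ↔ w i ∈ span ℚ (w '' S)) :
    Nonempty (↥(Lat v) ≃o ↥(Lat w)) := by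
  have hle : ∀ S T, VS v S ⊆ VS v T ↔ VS w S ⊆ VS w T := by
    intro S T
    rw [VS_le_iff, VS_le_iff]
    exact forall₂_congr fun i _ => h S i
  -- choose representatives
  let fwd : ↥(Lat v) → ↥(Lat w) := fun W => ⟨VS w W.2.choose, W.2.choose, rfl⟩
  let bwd : ↥(Lat w) → ↥(Lat v) := fun W => ⟨VS v W.2.choose, W.2.choose, rfl⟩
  have hf : ∀ W : ↥(Lat v), VS v W.2.choose = W.1 := fun W => W.2.choose_spec.symm
  have hb : ∀ W : ↥(Lat w), VS w W.2.choose = W.1 := fun W => W.2.choose_spec.symm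
  have hcong : ∀ S T, VS v S = VS v T ↔ VS w S = VS w T := by
    intro S T
    rw [Set.Subset.antisymm_iff, Set.Subset.antisymm_iff, hle, hle]
  refine ⟨{ toFun := fwd, invFun := bwd, left_inv := ?_, right_inv := ?_, map_rel_iff' := ?_ }⟩
  · intro W
    apply Subtype.ext
    change VS v (fwd W).2.choose = W.1
    rw [← hf W, hcong]
    exact hb (fwd W)
  · intro W
    apply Subtype.ext
    change VS w (bwd W).2.choose = W.1
    rw [← hb W, ← hcong]
    exact hf (bwd W)
  · intro W W'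
    change VS w W.2.choose ⊆ VS w W'.2.choose ↔ W.1 ⊆ W'.1
    rw [← hle, hf, hf]

theorem lattice_iso_of_det {d : ℕ} {v w : Fin d → Fin 4 → ℚ}
    (hdet : ∀ e : Fin 4 ↪o Fin d, (Matrix.of fun i => v (e i)).det ≠ 0 ↔
      (Matrix.of fun i => w (e i)).det ≠ 0)
    (e₀ : Fin 4 ↪o Fin d) (he₀ : (Matrix.of fun i => v (e₀ i)).det ≠ 0) :
    Nonempty (↥(Lat v) ≃o ↥(Lat w)) := by
  have hsp : ∀ u : Fin d → Fin 4 → ℚ, (Matrix.of fun i => u (e₀ i)).det ≠ 0 →
      span ℚ (Set.range u) = ⊤ := by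
    intro u hu
    rw [← det_iff] at hu
    rw [linearIndepOn_range_iff e₀.injective] at hu
    have h1 := hu.span_eq_top_of_card_eq_finrank' (by simp)
    rw [eq_top_iff, ← h1]
    apply span_mono
    rintro _ ⟨i, rfl⟩
    exact ⟨e₀ i, rfl⟩
  have hiff : ∀ B : Set (Fin d), LinearIndepOn ℚ v B ↔ LinearIndepOn ℚ w B := fun B =>
    ⟨indep_transfer (fun e => (hdet e).1) (hsp v he₀),
      indep_transfer (fun e => (hdet e).2) (hsp w ((hdet e₀).1 he₀))⟩
  exact lattice_iso fun S i =>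
    ⟨span_transfer hiff, span_transfer fun B => (hiff B).symm⟩

end lattice

end Pool.Agent.Work.MP_7f7c16_ag
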