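import Pool.Agent.Work.MP_7f7c16_ag.Chain
import Pool.Agent.Work.MP_7f7c16_ag.Lattice

set_option autoImplicit false

namespace Pool.Agent.Work.MP_7f7c16_ag

open MvPolynomial

abbrev Q4 := ℤ × ℤ × ℤ × ℤ

/-- The integer coefficient vectors of the seventeen planes, depending on a parameter. -/
def TT (lam : ℤ) : ℕ → Q4
  | 0 => (1, 0, 0, 0)
  | 1 => (0, 1, 0, 0)
  | 2 => (0, 0, 1, 0)
  | 3 => (0, 1, -1, 0)
  | 4 => (-1, 0, 1, 0)
  | 5 => (1, -lam, 0, 0)
  | 6 => (0, 0, 0, 1)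
  | 7 => (0, 3, -1, 0)
  | 8 => (4, 0, 3, 0)
  | 9 => (3, -4, 0, 0)
  | 10 => (2, 3, -5, 0)
  | 11 => (-1, 3 + lam, -3, 0)
  | 12 => (-4, lam, 3, 0)
  | 13 => (1, 0, 0, 3)
  | 14 => (0, -4, 4, 1)
  | 15 => (-4, 0, 4, 3)
  | 16 => (3, -3 * lam, 0, 1)
  | _ => (0, 0, 0, 0)

def vec (q : Q4) : Fin 4 → ℚ := ![(q.1 : ℚ), (q.2.1 : ℚ), (q.2.2.1 : ℚ), (q.2.2.2 : ℚ)]

def LL (lam : ℤ) (n : ℕ) : Fin 4 → ℚ := vec (TT lam n)

/-- `4 × 4` determinant of integer rows -/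
def det4 (a b c d : Q4) : ℤ :=
  a.1 * (b.2.1 * (c.2.2.1 * d.2.2.2 - c.2.2.2 * d.2.2.1)
    - b.2.2.1 * (c.2.1 * d.2.2.2 - c.2.2.2 * d.2.1)
    + b.2.2.2 * (c.2.1 * d.2.2.1 - c.2.2.1 * d.2.1))
  - a.2.1 * (b.1 * (c.2.2.1 * d.2.2.2 - c.2.2.2 * d.2.2.1)
    - b.2.2.1 * (c.1 * d.2.2.2 - c.2.2.2 * d.1)
    + b.2.2.2 * (c.1 * d.2.2.1 - c.2.2.1 * d.1))
  + a.2.2.1 * (b.1 * (c.2.1 * d.2.2.2 - c.2.2.2 * d.2.1)
    - b.2.1 * (c.1 * d.2.2.2 - c.2.2.2 * d.1)
    + b.2.2.2 * (c.1 * d.2.1 - c.2.1 * d.1))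
  - a.2.2.2 * (b.1 * (c.2.1 * d.2.2.1 - c.2.2.1 * d.2.1)
    - b.2.1 * (c.1 * d.2.2.1 - c.2.2.1 * d.1)
    + b.2.2.1 * (c.1 * d.2.1 - c.2.1 * d.1))

theorem det_rows (a b c d : Q4) :
    (rows (vec a) (vec b) (vec c) (vec d)).det = (det4 a b c d : ℚ) := by
  simp only [rows, Matrix.det_succ_row_zero, Fin.sum_univ_succ, Matrix.det_fin_zero, vec, det4]
  simp [Fin.succAbove, Matrix.submatrix]
  ring

def sg : Q4 := (1, -1, 0, 1)
def ta : Q4 := (2, -1, 2, -3)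
def mm : Q4 := (1, 1, -1, 0)

/-- check 1 : `σ, τ, L a, L b` independent for all `b < a < 17` -/
def chk1 (lam : ℤ) : Bool :=
  (List.range 17).all fun b => (List.range b).all fun a =>
    det4 sg ta (TT lam a) (TT lam b) != 0

/-- check 2 : the new plane contains only the designed line -/
def chk2 (lam : ℤ) : Bool :=
  (List.range 17).all fun n => decide (n < 7) || (List.range n).all fun b =>
    (List.range b).all fun a => (decide (a ∈ KK n) && decide (b ∈ KK n)) ||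
      det4 (TT lam n) ta (TT lam a) (TT lam b) != 0

theorem chk1_a : chk1 (-1) = true := by decide +kernel
theorem chk1_b : chk1 4 = true := by decide +kernel
theorem chk2_a : chk2 (-1) = true := by decide +kernel
theorem chk2_b : chk2 4 = true := by decide +kernel

theorem chk1_spec {lam : ℤ} (h : chk1 lam = true) {a b : ℕ} (hab : a < b) (hb : b < 17) :
    det4 sg ta (TT lam a) (TT lam b) ≠ 0 := by
  unfold chk1 at h
  rw [List.all_eq_true] at h
  have h1 := h b (List.mem_range.2 hb)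
  rw [List.all_eq_true] at h1
  have h2 := h1 a (List.mem_range.2 hab)
  simpa using h2

theorem chk2_spec {lam : ℤ} (h : chk2 lam = true) {a b n : ℕ} (h7 : 7 ≤ n) (h17 : n < 17)
    (hab : a < b) (hb : b < n) (hK : ¬ (a ∈ KK n ∧ b ∈ KK n)) :
    det4 (TT lam n) ta (TT lam a) (TT lam b) ≠ 0 := by
  unfold chk2 at h
  rw [List.all_eq_true] at h
  have h1 := h n (List.mem_range.2 h17)
  rw [Bool.or_eq_true] at h1
  rcases h1 with h1 | h1
  · exact absurd (of_decide_eq_true h1) (by omega)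
  · rw [List.all_eq_true] at h1
    have h2 := h1 b (List.mem_range.2 hb)
    rw [List.all_eq_true] at h2
    have h3 := h2 a (List.mem_range.2 hab)
    rw [Bool.or_eq_true, Bool.and_eq_true] at h3
    rcases h3 with ⟨h4, h5⟩ | h3
    · exact absurd ⟨of_decide_eq_true h4, of_decide_eq_true h5⟩ hK
    · simpa using h3

theorem det_ne {a b c d : Q4} (h : det4 a b c d ≠ 0) :
    (rows (vec a) (vec b) (vec c) (vec d)).det ≠ 0 := by
  rw [det_rows]
  exact_mod_cast h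

/-- exchanging rows -/
theorem det4_swap1 (a b c d : Q4) : det4 d b c a = - det4 a b c d := by
  unfold det4; ring

theorem det4_swap2 (a b c d : Q4) : det4 c b a d = - det4 a b c d := by
  unfold det4; ring

theorem PI_eq_of_rel {a b c : Q4} {p q r : ℤ} (hp : p ≠ 0) (hr : r ≠ 0)
    (h : p * c.1 = q * a.1 + r * b.1 ∧ p * c.2.1 = q * a.2.1 + r * b.2.1 ∧
      p * c.2.2.1 = q * a.2.2.1 + r * b.2.2.1 ∧ p * c.2.2.2 = q * a.2.2.2 + r * b.2.2.2) :
    PI (vec a) (vec c) = PI (vec a) (vec b) := by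
  have hp' : (p : ℚ) ≠ 0 := by exact_mod_cast hp
  have hr' : (r : ℚ) ≠ 0 := by exact_mod_cast hr
  apply PI_eq_of_comb (a := (q : ℚ) / p) (b := (r : ℚ) / p) (div_ne_zero hr' hp')
  obtain ⟨h1, h2, h3, h4⟩ := h
  have key : ∀ {x y z : ℤ}, p * z = q * x + r * y →
      (z : ℚ) = (q : ℚ) / p * x + (r : ℚ) / p * y := by
    intro x y z hz
    have : (p : ℚ) * z = q * x + r * y := by exact_mod_cast hz
    field_simp
    linarith
  funext j
  fin_cases j
  · simpa [vec] using key h1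
  · simpa [vec] using key h2
  · simpa [vec] using key h3
  · simpa [vec] using key h4

end Pool.Agent.Work.MP_7f7c16_ag
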