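import Pool.Agent.Work.MP_7f7c16_ag.Data

set_option autoImplicit false

namespace Pool.Agent.Work.MP_7f7c16_ag

open MvPolynomial

theorem rel_same (lam : ℤ) (h3 : 3 * lam - 4 ≠ 0) (n : ℕ) (h7 : 7 ≤ n) (h17 : n < 17) :
    ∀ a ∈ (KK n).tail, ∃ p q r : ℤ, p ≠ 0 ∧ r ≠ 0 ∧
      (let A := TT lam n; let B := TT lam a; let C := TT lam ((KK n).headD 0)
       p * C.1 = q * A.1 + r * B.1 ∧ p * C.2.1 = q * A.2.1 + r * B.2.1 ∧
       p * C.2.2.1 = q * A.2.2.1 + r * B.2.2.1 ∧ p * C.2.2.2 = q * A.2.2.2 + r * B.2.2.2) := by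
  interval_cases n
  · intro a ha
    simp only [KK, List.tail_cons, List.mem_cons, List.not_mem_nil, or_false] at ha
    rcases ha with rfl | rfl
    · exact ⟨3, 1, 1, by norm_num, by norm_num, by simp [TT, KK]⟩
    · exact ⟨2, 1, -1, by norm_num, by norm_num, by simp [TT, KK]⟩
  · intro a ha
    simp only [KK, List.tail_cons, List.mem_cons, List.not_mem_nil, or_false] at ha
    rcases ha with rfl | rfl
    · exact ⟨4, 1, -3, by norm_num, by norm_num, by simp [TT, KK]⟩
    · exact ⟨7, 1, -3, by norm_num, by norm_num, by simp [TT, KK]⟩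
  · intro a ha
    simp only [KK, List.tail_cons, List.mem_cons, List.not_mem_nil, or_false] at ha
    rcases ha with rfl | rfl
    · exact ⟨3, 1, 4, by norm_num, by norm_num, by simp [TT, KK]⟩
    · refine ⟨3 * lam - 4, lam, -4, h3, by norm_num, ?_⟩
      simp only [TT, KK, List.headD_cons]
      refine ⟨by ring, by ring, by ring, by ring⟩
  · intro a ha
    simp only [KK, List.tail_cons, List.mem_cons, List.not_mem_nil, or_false] at ha
    subst ha
    exact ⟨3, 1, 2, by norm_num, by norm_num, by simp [TT, KK]⟩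
  · intro a ha
    simp only [KK, List.tail_cons, List.mem_cons, List.not_mem_nil, or_false] at ha
    subst ha
    refine ⟨3, 1, 1, by norm_num, by norm_num, ?_⟩
    simp only [TT, KK, List.headD_cons]
    refine ⟨by ring, by ring, by ring, by ring⟩
  · intro a ha
    simp only [KK, List.tail_cons, List.mem_cons, List.not_mem_nil, or_false] at ha
    subst ha
    refine ⟨3, 1, 1, by norm_num, by norm_num, ?_⟩
    simp only [TT, KK, List.headD_cons]
    refine ⟨by ring, by ring, by ring, by ring⟩
  · intro a ha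
    simp only [KK, List.tail_cons, List.mem_cons, List.not_mem_nil, or_false] at ha
    subst ha
    exact ⟨3, 1, -1, by norm_num, by norm_num, by simp [TT, KK]⟩
  · intro a ha
    simp only [KK, List.tail_cons, List.mem_cons, List.not_mem_nil, or_false] at ha
    subst ha
    exact ⟨1, 1, 4, by norm_num, by norm_num, by simp [TT, KK]⟩
  · intro a ha
    simp only [KK, List.tail_cons, List.mem_cons, List.not_mem_nil, or_false] at ha
    subst ha
    exact ⟨3, 1, -4, by norm_num, by norm_num, by simp [TT, KK]⟩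
  · intro a ha
    simp only [KK, List.tail_cons, List.mem_cons, List.not_mem_nil, or_false] at ha
    subst ha
    refine ⟨1, 1, -3, by norm_num, by norm_num, ?_⟩
    simp only [TT, KK, List.headD_cons]
    refine ⟨by ring, by ring, by ring, by ring⟩

theorem rel_killed (lam : ℤ) (h0 : lam ≠ 0) (a b : ℕ) (hab : a < b) (hb : b < 7)
    (hE : (a, b) ∉ E0) : ∃ n : ℕ, 7 ≤ n ∧ n < 17 ∧ ∃ p q r : ℤ, p ≠ 0 ∧ r ≠ 0 ∧
      (let A := TT lam a; let B := TT lam b; let C := TT lam n
       p * C.1 = q * A.1 + r * B.1 ∧ p * C.2.1 = q * A.2.1 + r * B.2.1 ∧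
       p * C.2.2.1 = q * A.2.2.1 + r * B.2.2.1 ∧ p * C.2.2.2 = q * A.2.2.2 + r * B.2.2.2) := by
  interval_cases b
  · omega
  · interval_cases a
    exact ⟨9, by norm_num, by norm_num, 1, 3, -4, by norm_num, by norm_num, by simp [TT]⟩
  · interval_cases a
    · exact ⟨8, by norm_num, by norm_num, 1, 4, 3, by norm_num, by norm_num, by simp [TT]⟩
    · exact ⟨7, by norm_num, by norm_num, 1, 3, -1, by norm_num, by norm_num, by simp [TT]⟩
  · interval_cases a
    · exact absurd (by decide) hE
    · exact ⟨7, by norm_num, by norm_num, 1, 2, 1, by norm_num, by norm_num, by simp [TT]⟩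
    · exact ⟨7, by norm_num, by norm_num, 1, 2, 3, by norm_num, by norm_num, by simp [TT]⟩
  · interval_cases a
    · exact ⟨8, by norm_num, by norm_num, 1, 7, 3, by norm_num, by norm_num, by simp [TT]⟩
    · exact absurd (by decide) hE
    · exact ⟨8, by norm_num, by norm_num, 1, 7, -4, by norm_num, by norm_num, by simp [TT]⟩
    · exact ⟨10, by norm_num, by norm_num, 1, 3, -2, by norm_num, by norm_num, by simp [TT]⟩
  · interval_cases a
    · refine ⟨9, by norm_num, by norm_num, lam, 3 * lam - 4, 4, h0, by norm_num, ?_⟩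
      simp only [TT]
      refine ⟨by ring, by ring, by ring, by ring⟩
    · refine ⟨9, by norm_num, by norm_num, 1, 3 * lam - 4, 3, by norm_num, by norm_num, ?_⟩
      simp only [TT]
      refine ⟨by ring, by ring, by ring, by ring⟩
    · exact absurd (by decide) hE
    · refine ⟨11, by norm_num, by norm_num, 1, 3, -1, by norm_num, by norm_num, ?_⟩
      simp only [TT]
      refine ⟨by ring, by ring, by ring, by ring⟩
    · refine ⟨12, by norm_num, by norm_num, 1, 3, -1, by norm_num, by norm_num, ?_⟩
      simp only [TT]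
      refine ⟨by ring, by ring, by ring, by ring⟩
  · interval_cases a
    · exact ⟨13, by norm_num, by norm_num, 1, 1, 3, by norm_num, by norm_num, by simp [TT]⟩
    · exact absurd (by decide) hE
    · exact absurd (by decide) hE
    · exact ⟨14, by norm_num, by norm_num, 1, -4, 1, by norm_num, by norm_num, by simp [TT]⟩
    · exact ⟨15, by norm_num, by norm_num, 1, 4, 3, by norm_num, by norm_num, by simp [TT]⟩
    · refine ⟨16, by norm_num, by norm_num, 1, 3, 1, by norm_num, by norm_num, ?_⟩
      simp only [TT]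
      refine ⟨by ring, by ring, by ring, by ring⟩

theorem good_LL (lam : ℤ) (h0 : lam ≠ 0) (h3 : 3 * lam - 4 ≠ 0) (hc1 : chk1 lam = true)
    (hc2 : chk2 lam = true) : Good (LL lam) where
  prime := fun a b hab hb => PI_isPrime (det_ne (chk1_spec hc1 hab hb))
  exX := fun a b hab hb => exists_X_notMem (det_ne (chk1_spec hc1 hab hb))
  indep := by
    intro n h7 h17 a b hab hb hK
    have h := chk2_spec hc2 h7 h17 hab hb hK
    have h1 : det4 (TT lam b) ta (TT lam a) (TT lam n) ≠ 0 := by
      rw [det4_swap1]; exact neg_ne_zero.2 h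
    have h2 : det4 (TT lam a) ta (TT lam b) (TT lam n) ≠ 0 := by
      rw [det4_swap2]
      exact neg_ne_zero.2 h1
    exact ⟨lin_notMem (det_ne h), lin_notMem (det_ne h1), lin_notMem (det_ne h2)⟩
  same := by
    intro n h7 h17 a ha
    obtain ⟨p, q, r, hp, hr, h⟩ := rel_same lam h3 n h7 h17 a ha
    have := PI_eq_of_rel hp hr h
    rw [PI_comm, PI_comm (LL lam ((KK n).headD 0))]
    exact this.symm
  killed := by
    intro a b hab hb hE
    obtain ⟨n, h7, h17, p, q, r, hp, hr, h⟩ := rel_killed lam h0 a b hab hb hE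
    exact ⟨n, h7, h17, (PI_eq_of_rel hp hr h).symm⟩

theorem good_a : Good (LL (-1)) := good_LL (-1) (by norm_num) (by norm_num) chk1_a chk2_a
theorem good_b : Good (LL 4) := good_LL 4 (by norm_num) (by norm_num) chk1_b chk2_b

end Pool.Agent.Work.MP_7f7c16_ag
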