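import Pool.Agent.Work.MP_7f7c16_ag.Comm

set_option autoImplicit false

namespace Pool.Agent.Work.MP_7f7c16_ag

open MvPolynomial

/-- The polynomial ring `ℚ[x₀,x₁,x₂,x₃]`. -/
abbrev R4 := MvPolynomial (Fin 4) ℚ

/-- The polynomial ring `ℚ[x₀,x₁]`. -/
abbrev S2 := MvPolynomial (Fin 2) ℚ

/-- The linear form with coefficient vector `v`. -/
noncomputable def lin (v : Fin 4 → ℚ) : R4 := ∑ j : Fin 4, (C (v j) * X j : R4)

/-- The ideal of the line cut out by two linear forms. -/
noncomputable def PI (u v : Fin 4 → ℚ) : Ideal R4 := Ideal.span {lin u, lin v}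

theorem lin_mem_left (u v : Fin 4 → ℚ) : lin u ∈ PI u v :=
  Ideal.subset_span (by simp)

theorem lin_mem_right (u v : Fin 4 → ℚ) : lin v ∈ PI u v :=
  Ideal.subset_span (by simp)

theorem PI_comm (u v : Fin 4 → ℚ) : PI u v = PI v u := by
  unfold PI
  rw [Set.pair_comm]

theorem lin_add (u v : Fin 4 → ℚ) : lin (u + v) = lin u + lin v := by
  unfold lin
  rw [← Finset.sum_add_distrib]
  refine Finset.sum_congr rfl fun j _ => ?_
  simp [add_mul]

theorem lin_smul (c : ℚ) (u : Fin 4 → ℚ) : lin (c • u) = C c * lin u := by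
  unfold lin
  rw [Finset.mul_sum]
  refine Finset.sum_congr rfl fun j _ => ?_
  simp [mul_assoc]

theorem PI_le_of_mem {u v u' v' : Fin 4 → ℚ} (h1 : lin u' ∈ PI u v) (h2 : lin v' ∈ PI u v) :
    PI u' v' ≤ PI u v := by
  unfold PI at *
  rw [Ideal.span_le]
  rintro x (rfl | rfl)
  · exact h1
  · exact h2

/-- If `v' = a • u + b • v` with `b ≠ 0` then the two ideals agree. -/
theorem PI_eq_of_comb {u v v' : Fin 4 → ℚ} {a b : ℚ} (hb : b ≠ 0) (h : v' = a • u + b • v) :
    PI u v' = PI u v := by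
  have h1 : lin v' = C a * lin u + C b * lin v := by
    rw [h, lin_add, lin_smul, lin_smul]
  apply le_antisymm
  · refine PI_le_of_mem (lin_mem_left _ _) ?_
    rw [h1]
    exact Ideal.add_mem _ (Ideal.mul_mem_left _ _ (lin_mem_left _ _))
      (Ideal.mul_mem_left _ _ (lin_mem_right _ _))
  · refine PI_le_of_mem (lin_mem_left _ _) ?_
    have h2 : lin v = C b⁻¹ * (lin v' - C a * lin u) := by
      rw [h1]
      have : (C b⁻¹ : R4) * C b = 1 := by
        rw [← C_mul, inv_mul_cancel₀ hb, C_1]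
      linear_combination (-lin v) * this
    rw [h2]
    exact Ideal.mul_mem_left _ _ (Ideal.sub_mem _ (lin_mem_right _ _)
      (Ideal.mul_mem_left _ _ (lin_mem_left _ _)))

/-- Evaluation of a linear form under an algebra map sending `X a` to a linear form in two
variables. -/
noncomputable def psi (c : Matrix (Fin 4) (Fin 4) ℚ) : R4 →ₐ[ℚ] S2 :=
  aeval (fun a => (C (c a 0) * X 0 + C (c a 1) * X 1 : S2))

theorem psi_lin (c : Matrix (Fin 4) (Fin 4) ℚ) (w : Fin 4 → ℚ) :
    psi c (lin w) = C (∑ j, w j * c j 0) * X 0 + C (∑ j, w j * c j 1) * X 1 := by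
  have h : ∀ j, psi c (C (w j) * X j) = C (w j) * (C (c j 0) * X 0 + C (c j 1) * X 1) := by
    intro j
    simp [psi, algHom_C, algebraMap_eq]
  rw [lin, map_sum, Finset.sum_congr rfl (fun j _ => h j), map_sum, map_sum, Finset.sum_mul,
    Finset.sum_mul, ← Finset.sum_add_distrib]
  refine Finset.sum_congr rfl fun j _ => ?_
  rw [C_mul, C_mul]
  ring

/-- rows of a `4 × 4` matrix -/
def rows (s t u v : Fin 4 → ℚ) : Matrix (Fin 4) (Fin 4) ℚ := ![s, t, u, v]

theorem psi_facts {s t u v : Fin 4 → ℚ} {c : Matrix (Fin 4) (Fin 4) ℚ}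
    (hc : rows s t u v * c = 1) :
    psi c (lin s) = X 0 ∧ psi c (lin t) = X 1 ∧ psi c (lin u) = 0 ∧ psi c (lin v) = 0 := by
  have h : ∀ i k, ∑ j, (rows s t u v) i j * c j k = (1 : Matrix (Fin 4) (Fin 4) ℚ) i k := by
    intro i k
    rw [← hc]
    rfl
  refine ⟨?_, ?_, ?_, ?_⟩
  · rw [psi_lin]
    have h0 := h 0 0
    have h1 := h 0 1
    have e0 : ∑ j, s j * c j 0 = 1 := by simpa [rows] using h0
    have e1 : ∑ j, s j * c j 1 = 0 := by simpa [rows] using h1
    rw [e0, e1]; simp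
  · rw [psi_lin]
    have h0 := h 1 0
    have h1 := h 1 1
    have e0 : ∑ j, t j * c j 0 = 0 := by simpa [rows] using h0
    have e1 : ∑ j, t j * c j 1 = 1 := by simpa [rows] using h1
    rw [e0, e1]; simp
  · rw [psi_lin]
    have h0 := h 2 0
    have h1 := h 2 1
    have e0 : ∑ j, u j * c j 0 = 0 := by simpa [rows] using h0
    have e1 : ∑ j, u j * c j 1 = 0 := by simpa [rows] using h1
    rw [e0, e1]; simp
  · rw [psi_lin]
    have h0 := h 3 0
    have h1 := h 3 1
    have e0 : ∑ j, v j * c j 0 = 0 := by simpa [rows] using h0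
    have e1 : ∑ j, v j * c j 1 = 0 := by simpa [rows] using h1
    rw [e0, e1]; simp

/-- The structure map `ℚ[x₀,x₁] → ℚ[x₀,…,x₃]`, `x₀ ↦ s`, `x₁ ↦ t`. -/
noncomputable def phi (s t : Fin 4 → ℚ) : S2 →ₐ[ℚ] R4 := aeval ![lin s, lin t]

theorem phi_X0 (s t : Fin 4 → ℚ) : phi s t (X 0) = lin s := by simp [phi]
theorem phi_X1 (s t : Fin 4 → ℚ) : phi s t (X 1) = lin t := by simp [phi]

theorem psi_phi {s t u v : Fin 4 → ℚ} {c : Matrix (Fin 4) (Fin 4) ℚ}
    (hc : rows s t u v * c = 1) (f : S2) : psi c (phi s t f) = f := by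
  have h : (psi c).comp (phi s t) = AlgHom.id ℚ S2 := by
    apply MvPolynomial.algHom_ext
    intro i
    fin_cases i
    · simp [phi_X0, (psi_facts hc).1]
    · simp [phi_X1, (psi_facts hc).2.1]
  have := congrArg (fun g => g f) h
  simpa using this

theorem X_eq_comb {s t u v : Fin 4 → ℚ} {c : Matrix (Fin 4) (Fin 4) ℚ}
    (hc : c * rows s t u v = 1) (a : Fin 4) :
    (X a : R4) = C (c a 0) * lin s + C (c a 1) * lin t + C (c a 2) * lin u + C (c a 3) * lin v := by
  have h : ∀ k, ∑ j, c a j * (rows s t u v) j k = (1 : Matrix (Fin 4) (Fin 4) ℚ) a k := by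
    intro k
    rw [← hc]
    rfl
  have h' : ∀ k, c a 0 * s k + c a 1 * t k + c a 2 * u k + c a 3 * v k
      = (1 : Matrix (Fin 4) (Fin 4) ℚ) a k := by
    intro k
    rw [← h k, Fin.sum_univ_four]
    simp [rows]
  have e : C (c a 0) * lin s + C (c a 1) * lin t + C (c a 2) * lin u + C (c a 3) * lin v
      = lin (fun k => (1 : Matrix (Fin 4) (Fin 4) ℚ) a k) := by
    have : (fun k => (1 : Matrix (Fin 4) (Fin 4) ℚ) a k)
        = c a 0 • s + c a 1 • t + c a 2 • u + c a 3 • v := by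
      funext k
      rw [← h' k]
      simp
    rw [this, lin_add, lin_add, lin_add, lin_smul, lin_smul, lin_smul, lin_smul]
  rw [e]
  unfold lin
  rw [Finset.sum_eq_single a]
  · simp
  · intro b _ hb
    have : (1 : Matrix (Fin 4) (Fin 4) ℚ) a b = 0 := Matrix.one_apply_ne (Ne.symm hb)
    simp only [this, C_0, zero_mul]
  · simp

theorem sub_phi_psi_mem {s t u v : Fin 4 → ℚ} {c : Matrix (Fin 4) (Fin 4) ℚ}
    (hc : c * rows s t u v = 1) (f : R4) : f - phi s t (psi c f) ∈ PI u v := by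
  induction f using MvPolynomial.induction_on with
  | C a =>
    have : phi s t (psi c (C a)) = C a := by
      simp [algHom_C, algebraMap_eq]
    rw [this, sub_self]
    exact Ideal.zero_mem _
  | add p q hp hq =>
    have : p + q - phi s t (psi c (p + q)) = (p - phi s t (psi c p)) + (q - phi s t (psi c q)) := by
      rw [map_add, map_add]; ring
    rw [this]
    exact Ideal.add_mem _ hp hq
  | mul_X p a hp =>
    have hX : (X a : R4) - phi s t (psi c (X a)) ∈ PI u v := by
      have h1 : phi s t (psi c (X a)) = C (c a 0) * lin s + C (c a 1) * lin t := by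
        simp [psi, phi_X0, phi_X1, algHom_C, algebraMap_eq]
      rw [h1, X_eq_comb hc a]
      have : C (c a 0) * lin s + C (c a 1) * lin t + C (c a 2) * lin u + C (c a 3) * lin v
          - (C (c a 0) * lin s + C (c a 1) * lin t) = C (c a 2) * lin u + C (c a 3) * lin v := by ring
      rw [this]
      exact Ideal.add_mem _ (Ideal.mul_mem_left _ _ (lin_mem_left _ _))
        (Ideal.mul_mem_left _ _ (lin_mem_right _ _))
    have : p * X a - phi s t (psi c (p * X a))
        = (p - phi s t (psi c p)) * X a + phi s t (psi c p) * (X a - phi s t (psi c (X a))) := by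
      rw [map_mul, map_mul]; ring
    rw [this]
    exact Ideal.add_mem _ (Ideal.mul_mem_right _ _ hp) (Ideal.mul_mem_left _ _ hX)

theorem mem_PI_iff {s t u v : Fin 4 → ℚ} {c : Matrix (Fin 4) (Fin 4) ℚ}
    (hc : c * rows s t u v = 1) (f : R4) : f ∈ PI u v ↔ psi c f = 0 := by
  have hc' : rows s t u v * c = 1 := mul_eq_one_comm.mp hc
  constructor
  · intro hf
    unfold PI at hf
    have : Ideal.span {lin u, lin v} ≤ RingHom.ker (psi c).toRingHom := by
      rw [Ideal.span_le]
      rintro x (rfl | rfl)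
      · exact (psi_facts hc').2.2.1
      · exact (psi_facts hc').2.2.2
    exact this hf
  · intro hf
    have := sub_phi_psi_mem hc f
    rw [hf, map_zero, sub_zero] at this
    exact this

theorem exists_inv {s t u v : Fin 4 → ℚ} (hdet : (rows s t u v).det ≠ 0) :
    ∃ c : Matrix (Fin 4) (Fin 4) ℚ, c * rows s t u v = 1 :=
  ⟨(rows s t u v)⁻¹, Matrix.nonsing_inv_mul _ (Ne.isUnit hdet)⟩

theorem PI_isPrime {s t u v : Fin 4 → ℚ} (hdet : (rows s t u v).det ≠ 0) : (PI u v).IsPrime := by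
  obtain ⟨c, hc⟩ := exists_inv hdet
  have : PI u v = RingHom.ker (psi c).toRingHom := by
    ext f
    rw [mem_PI_iff hc]
    rfl
  rw [this]
  exact RingHom.ker_isPrime _

/-- a linear form independent of two others is not in their ideal -/
theorem lin_notMem {s t u v : Fin 4 → ℚ} (hdet : (rows s t u v).det ≠ 0) : lin s ∉ PI u v := by
  obtain ⟨c, hc⟩ := exists_inv hdet
  rw [mem_PI_iff hc, (psi_facts (mul_eq_one_comm.mp hc)).1]
  exact X_ne_zero 0

theorem PI_ff [Algebra S2 R4] {s t u v : Fin 4 → ℚ} (hs : algebraMap S2 R4 = (phi s t).toRingHom)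
    (hdet : (rows s t u v).det ≠ 0) : FF S2 (PI u v) := by
  obtain ⟨c, hc⟩ := exists_inv hdet
  have hc' : rows s t u v * c = 1 := mul_eq_one_comm.mp hc
  let g : S2 →ₗ[S2] (R4 ⧸ PI u v) := Algebra.linearMap S2 (R4 ⧸ PI u v)
  have hg : ∀ f, g f = Ideal.Quotient.mk _ (phi s t f) := by
    intro f
    change algebraMap S2 (R4 ⧸ PI u v) f = _
    rw [IsScalarTower.algebraMap_apply S2 R4 (R4 ⧸ PI u v), hs]
    rfl
  have hinj : Function.Injective g := by
    rw [← LinearMap.ker_eq_bot, LinearMap.ker_eq_bot']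
    intro f hf
    rw [hg, Ideal.Quotient.eq_zero_iff_mem, mem_PI_iff hc, psi_phi hc'] at hf
    exact hf
  have hsurj : Function.Surjective g := by
    intro m
    obtain ⟨f, rfl⟩ := Ideal.Quotient.mk_surjective m
    refine ⟨psi c f, ?_⟩
    rw [hg, Ideal.Quotient.eq]
    have := (PI u v).neg_mem (sub_phi_psi_mem hc f)
    simpa using this
  let e : S2 ≃ₗ[S2] (R4 ⧸ PI u v) := LinearEquiv.ofBijective g ⟨hinj, hsurj⟩
  exact ⟨Module.Free.of_equiv e, Module.Finite.equiv e⟩

end Pool.Agent.Work.MP_7f7c16_ag
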