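import Pool.Agent.Work.MP_7f7c16_ag.BaseND
import Pool.Agent.Work.MP_7f7c16_ag.LatData
import Pool.Agent.Work.MP_7f7c16_ag.CM
import Pool.Agent.Work.MP_7f7c16_ag.NotCM
import Pool.Agent.Work.MP_7f7c16_ag.Rad

set_option autoImplicit false

namespace Pool.Agent.Work.MP_7f7c16_ag

open MvPolynomial RingTheory.Sequence Submodule

theorem own_ne_zero {lam : ℤ} (hc1 : chk1 lam = true) (a : Fin 17) : AA lam a ≠ 0 := by
  intro h0
  obtain ⟨b, hb⟩ : ∃ b : Fin 17, b ≠ a := exists_ne a
  have hdet : (rows (vec sg) (vec ta) (AA lam b) (AA lam a)).det = 0 := by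
    apply Matrix.det_eq_zero_of_row_eq_zero 3
    intro j
    have : AA lam a j = 0 := by rw [h0]; rfl
    exact this
  have hdet' : (rows (vec sg) (vec ta) (AA lam a) (AA lam b)).det = 0 := by
    apply Matrix.det_eq_zero_of_row_eq_zero 2
    intro j
    have : AA lam a j = 0 := by rw [h0]; rfl
    exact this
  rcases lt_or_gt_of_ne hb with h | h
  · exact det_ne (chk1_spec hc1 (Fin.lt_def.1 h) a.2) hdet
  · exact det_ne (chk1_spec hc1 (Fin.lt_def.1 h) b.2) hdet'

theorem own_indep {lam : ℤ} (hc1 : chk1 lam = true) (a b : Fin 17) (hab : a ≠ b) :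
    LinearIndependent ℚ ![AA lam a, AA lam b] := by
  have key : ∀ a b : Fin 17, a < b → LinearIndependent ℚ ![AA lam a, AA lam b] := by
    intro a b h
    have hdet := det_ne (chk1_spec hc1 (Fin.lt_def.1 h) b.2)
    have hli : LinearIndependent ℚ (rows (vec sg) (vec ta) (AA lam a) (AA lam b)) := by
      have h1 := Matrix.linearIndependent_rows_iff_isUnit (K := ℚ)
        (A := rows (vec sg) (vec ta) (AA lam a) (AA lam b))
      rw [Matrix.isUnit_iff_isUnit_det, isUnit_iff_ne_zero] at h1
      exact h1.2 hdet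
    have h2 := hli.comp ![2, 3] (by decide)
    have e : (rows (vec sg) (vec ta) (AA lam a) (AA lam b)) ∘ ![2, 3]
        = ![AA lam a, AA lam b] := by
      funext i
      fin_cases i <;> rfl
    rw [e] at h2
    exact h2
  rcases lt_or_gt_of_ne hab with h | h
  · exact key a b h
  · have := key b a h
    rw [LinearIndependent.pair_iff] at this ⊢
    intro s t hst
    have h2 := this t s (by rw [add_comm]; exact hst)
    exact ⟨h2.2, h2.1⟩

theorem own_rad {lam : ℤ} (hg : Good (LL lam)) (hc1 : chk1 lam = true) :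
    (jac (AA lam)).radical = JE (LL lam) (EE 17) := by
  rw [JE_final hg]
  apply rad_jac
  · intro a b hab
    exact PI_prime' hg (fun e => hab (Fin.ext e)) a.2 b.2
  · exact own_ne_zero hc1
  · norm_num

/-- The two arrangements have the same independent sets. -/
theorem own_matroid (B : Set (Fin 17)) :
    LinearIndepOn ℚ (AA (-1)) B ↔ LinearIndepOn ℚ (AA 4) B := by
  have h : ∀ (lam : ℤ) (e : Fin 4 ↪o Fin 17), (Matrix.of fun i => AA lam (e i)).det =
      (det4 (TT lam (e 0)) (TT lam (e 1)) (TT lam (e 2)) (TT lam (e 3)) : ℚ) := by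
    intro lam e
    rw [of_eq_rows, det_rows]
  have hdet : ∀ e : Fin 4 ↪o Fin 17, (Matrix.of fun i => AA (-1) (e i)).det ≠ 0 ↔
      (Matrix.of fun i => AA 4 (e i)).det ≠ 0 := by
    intro e
    rw [h, h, Int.cast_ne_zero, Int.cast_ne_zero]
    have h01 : e 0 < e 1 := e.strictMono (by decide)
    have h12 : e 1 < e 2 := e.strictMono (by decide)
    have h23 : e 2 < e 3 := e.strictMono (by decide)
    exact not_congr (chkL_spec (Fin.lt_def.1 h01) (Fin.lt_def.1 h12) (Fin.lt_def.1 h23) (e 3).2)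
  let f0 : Fin 4 → Fin 17 := ![0, 1, 2, 6]
  have hf0 : StrictMono f0 := by decide
  let e₀ : Fin 4 ↪o Fin 17 := OrderEmbedding.ofStrictMono f0 hf0
  have he₀ : (Matrix.of fun i => AA (-1) (e₀ i)).det ≠ 0 := by
    rw [h, Int.cast_ne_zero]
    change det4 (TT (-1) 0) (TT (-1) 1) (TT (-1) 2) (TT (-1) 6) ≠ 0
    decide
  have hsp : ∀ u : Fin 17 → Fin 4 → ℚ, (Matrix.of fun i => u (e₀ i)).det ≠ 0 →
      span ℚ (Set.range u) = ⊤ := by
    intro u hu
    rw [← det_iff] at hu
    rw [linearIndepOn_range_iff e₀.injective] at hu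
    have h1 := hu.span_eq_top_of_card_eq_finrank' (by simp)
    rw [eq_top_iff, ← h1]
    apply span_mono
    rintro _ ⟨i, rfl⟩
    exact ⟨e₀ i, rfl⟩
  exact ⟨indep_transfer (fun e => (hdet e).1) (hsp _ he₀),
    indep_transfer (fun e => (hdet e).2) (hsp _ ((hdet e₀).1 he₀))⟩

/-- The flats are contained in each other for the same pairs of index sets. -/
theorem own_flats (S T : Finset (Fin 17)) :
    VS (AA (-1)) S ⊆ VS (AA (-1)) T ↔ VS (AA 4) S ⊆ VS (AA 4) T := by
  rw [VS_le_iff, VS_le_iff]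
  exact forall₂_congr fun i _ =>
    ⟨span_transfer own_matroid, span_transfer fun B => (own_matroid B).symm⟩

/-- Failure of depth two at the irrelevant maximal ideal. -/
theorem own_depth {J : Ideal R4} {s t u v : Fin 4 → ℚ} (hdet : (rows s t u v).det ≠ 0)
    (hJ : J ≤ PI u v) (hnd : ND (fun i : Fin 4 => (X i : R4)) J) :
    ∃ (p : Ideal (R4 ⧸ J)) (_ : p.IsPrime),
      p = Ideal.span (Set.range fun i : Fin 4 => Ideal.Quotient.mk J (X i)) ∧
      2 ≤ ringKrullDim (Localization.AtPrime p) ∧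
      ∀ r1 ∈ IsLocalRing.maximalIdeal (Localization.AtPrime p),
        ∀ r2 ∈ IsLocalRing.maximalIdeal (Localization.AtPrime p),
          ¬ IsRegular (Localization.AtPrime p) [r1, r2] := by
  obtain ⟨c, hc⟩ := exists_inv hdet
  have hc' : rows s t u v * c = 1 := mul_eq_one_comm.mp hc
  obtain ⟨β, hβ1, hβ2⟩ := hnd
  let f : (R4 ⧸ J) →+* S2 := Ideal.Quotient.lift J (psi c).toRingHom
    (fun g hg => (mem_PI_iff hc g).1 (hJ hg))
  have hf : ∀ g, f (Ideal.Quotient.mk J g) = psi c g := fun g => rfl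
  have hsurj : Function.Surjective f := by
    intro g
    exact ⟨Ideal.Quotient.mk J (phi s t g), by rw [hf, psi_phi hc']⟩
  let mS : Ideal S2 := RingHom.ker (constantCoeff : S2 →+* ℚ)
  have hmS : mS.IsPrime := RingHom.ker_isPrime _
  have hX0 : (Ideal.span {(X 0 : S2)}).IsPrime :=
    (Ideal.span_singleton_prime (X_ne_zero 0)).2 (X_prime)
  let p : Ideal (R4 ⧸ J) := mS.comap f
  have hp : p.IsPrime := Ideal.comap_isPrime f mS
  have hp0 : ((⊥ : Ideal S2).comap f).IsPrime := Ideal.comap_isPrime f ⊥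
  have hp1 : ((Ideal.span {(X 0 : S2)}).comap f).IsPrime := Ideal.comap_isPrime f _
  have hnoeth : IsNoetherianRing (R4 ⧸ J) := inferInstance
  have hlt : ∀ I I' : Ideal S2, I < I' → I.comap f < I'.comap f := by
    intro I I' h
    refine lt_of_le_of_ne (Ideal.comap_mono h.le) fun he => ?_
    exact h.ne (Ideal.comap_injective_of_surjective f hsurj he)
  have h01 : (⊥ : Ideal S2).comap f < (Ideal.span {(X 0 : S2)}).comap f := by
    apply hlt
    rw [bot_lt_iff_ne_bot, Ne, Ideal.span_singleton_eq_bot]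
    exact X_ne_zero 0
  have h12 : (Ideal.span {(X 0 : S2)}).comap f < p := by
    apply hlt
    refine lt_of_le_of_ne ?_ ?_
    · rw [Ideal.span_singleton_le_iff_mem]
      change constantCoeff (X 0 : S2) = 0
      simp
    · intro he
      have h1 : (X 1 : S2) ∈ mS := by
        change constantCoeff (X 1 : S2) = 0
        simp
      rw [← he, Ideal.mem_span_singleton] at h1
      have h2 : (X 0 : S2) ∣ X 1 := h1
      rw [MvPolynomial.X_dvd_X] at h2
      simp at h2
  have hht : (2 : ℕ∞) ≤ p.height := by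
    have e1 := Ideal.height_add_one_le_of_lt_of_isPrime h01
    have e2 := Ideal.height_add_one_le_of_lt_of_isPrime h12
    calc (2 : ℕ∞) = 0 + 1 + 1 := by norm_num
      _ ≤ ((⊥ : Ideal S2).comap f).height + 1 + 1 := by gcongr; exact bot_le
      _ ≤ ((Ideal.span {(X 0 : S2)}).comap f).height + 1 := by gcongr
      _ ≤ p.height := e2
  have hpspan : p = Ideal.span (Set.range fun i : Fin 4 => Ideal.Quotient.mk J (X i)) := by
    apply le_antisymm
    · intro m hm
      obtain ⟨g, rfl⟩ := Ideal.Quotient.mk_surjective m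
      have hg : constantCoeff g = 0 := by
        have : constantCoeff (psi c g) = 0 := hm
        rwa [constantCoeff_psi] at this
      obtain ⟨e, he⟩ := exists_sum_X g
      rw [hg, C_0, zero_add] at he
      rw [he, map_sum]
      refine Ideal.sum_mem _ fun i _ => ?_
      rw [map_mul]
      exact Ideal.mul_mem_left _ _ (Ideal.subset_span ⟨i, rfl⟩)
    · rw [Ideal.span_le]
      rintro m ⟨i, rfl⟩
      change constantCoeff (psi c (X i)) = 0
      rw [constantCoeff_psi]
      simp
  refine ⟨p, hp, hpspan, ?_, ?_⟩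
  · rw [IsLocalization.AtPrime.ringKrullDim_eq_height p (Localization.AtPrime p)]
    exact WithBot.coe_le_coe.2 hht
  · intro r1 hm1 r2 hm2 hreg
    rw [isRegular_cons_iff, isRegular_cons_iff] at hreg
    obtain ⟨hr1, hr2, -⟩ := hreg
    have hrel : ∀ i j : Fin 4, Ideal.Quotient.mk J (X i) * Ideal.Quotient.mk J (β j)
        = Ideal.Quotient.mk J (X j) * Ideal.Quotient.mk J (β i) := by
      intro i j
      rw [← map_mul, ← map_mul, Ideal.Quotient.eq]
      exact hβ1 i j
    obtain ⟨θ, h, hθ, hθj⟩ := nd_localization_contra p (fun i => Ideal.Quotient.mk J (X i))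
      (fun i => Ideal.Quotient.mk J (β i)) hpspan hrel r1 r2 hm1 hm2 hr1 hr2
    obtain ⟨g, rfl⟩ := Ideal.Quotient.mk_surjective θ
    obtain ⟨h, rfl⟩ := Ideal.Quotient.mk_surjective h
    have hg0 : constantCoeff g ≠ 0 := by
      intro h0
      apply hθ
      change constantCoeff (psi c g) = 0
      rw [constantCoeff_psi, h0]
    have hmem : ∀ j, g * β j - X j * h ∈ J := by
      intro j
      rw [← Ideal.Quotient.eq, map_mul, map_mul]
      exact hθj j
    obtain ⟨e, he⟩ := exists_sum_X g
    apply hβ2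
    refine ⟨C (constantCoeff g)⁻¹ * (h - ∑ i, e i * β i), fun j => ?_⟩
    have hinv : (C (constantCoeff g)⁻¹ : R4) * C (constantCoeff g) = 1 := by
      rw [← C_mul, inv_mul_cancel₀ hg0, C_1]
    have hsum : ∑ i, e i * (X i * β j - X j * β i) ∈ J :=
      Ideal.sum_mem _ fun i _ => J.mul_mem_left _ (hβ1 i j)
    have hexp : ∑ i, e i * (X i * β j - X j * β i)
        = (∑ i, e i * X i) * β j - X j * ∑ i, e i * β i := by
      rw [Finset.sum_mul, Finset.mul_sum, ← Finset.sum_sub_distrib]
      refine Finset.sum_congr rfl fun i _ => ?_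
      ring
    rw [hexp] at hsum
    have key := J.mul_mem_left (C (constantCoeff g)⁻¹) (J.sub_mem (hmem j) hsum)
    have e1 : C (constantCoeff g)⁻¹ * (g * β j - X j * h
        - ((∑ i, e i * X i) * β j - X j * ∑ i, e i * β i))
        = β j - X j * (C (constantCoeff g)⁻¹ * (h - ∑ i, e i * β i)) := by
      linear_combination (C (constantCoeff g)⁻¹ * β j) * he + (β j) * hinv
    rw [e1] at key
    exact key

end Pool.Agent.Work.MP_7f7c16_ag
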