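import Pool.Agent.Work.MP_7f7c16_ag.Lin

set_option autoImplicit false

namespace Pool.Agent.Work.MP_7f7c16_ag

open MvPolynomial

theorem step_colon {J' Q : Ideal R4} {k G : R4} (hk : ∀ f, k * f ∈ J' → f ∈ J') (hG : G ∈ J')
    (hQ : Q = Ideal.span {k, G}) :
    (∀ f, k * f ∈ J' ⊓ Q ↔ f ∈ J') ∧ (∀ f, f ∈ Q ↔ ∃ a, f - k * a ∈ J' ⊓ Q) := by
  have hkQ : k ∈ Q := by rw [hQ]; exact Ideal.subset_span (by simp)
  have hGQ : G ∈ Q := by rw [hQ]; exact Ideal.subset_span (by simp)
  constructor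
  · intro f
    constructor
    · intro h
      exact hk f h.1
    · intro h
      exact ⟨Ideal.mul_mem_left _ _ h, Ideal.mul_mem_right _ _ hkQ⟩
  · intro f
    constructor
    · intro h
      rw [hQ, Ideal.mem_span_pair] at h
      obtain ⟨a, b, hab⟩ := h
      refine ⟨a, ?_⟩
      have : f - k * a = b * G := by rw [← hab]; ring
      rw [this]
      exact ⟨Ideal.mul_mem_left _ _ hG, Ideal.mul_mem_left _ _ hGQ⟩
    · rintro ⟨a, h⟩
      have h1 := Ideal.add_mem Q h.2 (Ideal.mul_mem_right a Q hkQ)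
      simpa using h1

/-- The union of the lines cut out on the plane `k` by the planes `h a`, `a ∈ s`. -/
noncomputable def QQ (h : ℕ → Fin 4 → ℚ) (k : Fin 4 → ℚ) (s : Finset ℕ) : Ideal R4 :=
  ⨅ a ∈ s, PI (h a) k

theorem mem_QQ {h : ℕ → Fin 4 → ℚ} {k : Fin 4 → ℚ} {s : Finset ℕ} {f : R4} :
    f ∈ QQ h k s ↔ ∀ a ∈ s, f ∈ PI (h a) k := by
  unfold QQ
  simp only [Submodule.mem_iInf]

variable {h : ℕ → Fin 4 → ℚ} {k : Fin 4 → ℚ}

theorem QQ_insert {a : ℕ} {s : Finset ℕ} {f : R4} :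
    f ∈ QQ h k (insert a s) ↔ f ∈ PI (h a) k ∧ f ∈ QQ h k s := by
  simp only [mem_QQ, Finset.mem_insert, forall_eq_or_imp]

theorem QQ_eq_span {s : Finset ℕ} (hp : ∀ a ∈ s, (PI (h a) k).IsPrime)
    (hn : ∀ a ∈ s, ∀ b ∈ s, a ≠ b → lin (h b) ∉ PI (h a) k) :
    QQ h k s = Ideal.span {lin k, ∏ a ∈ s, lin (h a)} := by
  induction s using Finset.induction_on with
  | empty =>
    ext f
    simp only [mem_QQ, Finset.notMem_empty, IsEmpty.forall_iff, implies_true, true_iff,
      Finset.prod_empty]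
    rw [Ideal.mem_span_pair]
    exact ⟨0, f, by ring⟩
  | insert a s ha ih =>
    have ih' := ih (fun b hb => hp b (Finset.mem_insert_of_mem hb))
      (fun b hb c hc hbc => hn b (Finset.mem_insert_of_mem hb) c (Finset.mem_insert_of_mem hc) hbc)
    rw [Finset.prod_insert ha]
    apply le_antisymm
    · intro f hf
      rw [QQ_insert, ih', Ideal.mem_span_pair] at hf
      obtain ⟨h1, α, β, hαβ⟩ := hf
      have hpa := hp a (Finset.mem_insert_self _ _)
      have h2 : β * ∏ b ∈ s, lin (h b) ∈ PI (h a) k := by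
        have : β * ∏ b ∈ s, lin (h b) = f - α * lin k := by rw [← hαβ]; ring
        rw [this]
        exact Ideal.sub_mem _ h1 (Ideal.mul_mem_left _ _ (lin_mem_right _ _))
      rcases hpa.mem_or_mem h2 with h3 | h3
      · unfold PI at h3
        rw [Ideal.mem_span_pair] at h3
        obtain ⟨γ, δ, hγδ⟩ := h3
        rw [Ideal.mem_span_pair]
        refine ⟨α + δ * ∏ b ∈ s, lin (h b), γ, ?_⟩
        rw [← hαβ, ← hγδ]
        ring
      · exfalso
        obtain ⟨b, hb, hbP⟩ := (hpa.prod_mem_iff).1 h3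
        exact hn a (Finset.mem_insert_self _ _) b (Finset.mem_insert_of_mem hb)
          (fun e => ha (e ▸ hb)) hbP
    · rw [Ideal.span_le]
      rintro x (rfl | rfl)
      · change lin k ∈ QQ h k (insert a s)
        rw [mem_QQ]
        intro b _
        exact lin_mem_right _ _
      · change _ ∈ QQ h k (insert a s)
        rw [QQ_insert]
        refine ⟨Ideal.mul_mem_right _ _ (lin_mem_left _ _), ?_⟩
        rw [mem_QQ]
        intro b hb
        refine Ideal.mul_mem_left _ _ ?_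
        rw [← Finset.mul_prod_erase s _ hb]
        exact Ideal.mul_mem_right _ _ (lin_mem_left _ _)

theorem QQ_ff {S : Type} [CommRing S] [Algebra S R4] {s : Finset ℕ}
    (hp : ∀ a ∈ s, (PI (h a) k).IsPrime)
    (hn : ∀ a ∈ s, ∀ b ∈ s, a ≠ b → lin (h b) ∉ PI (h a) k)
    (hff : ∀ a ∈ s, FF S (PI (h a) k)) : FF S (QQ h k s) := by
  induction s using Finset.induction_on with
  | empty =>
    have : QQ h k ∅ = ⊤ := by
      rw [eq_top_iff]
      intro f _
      rw [mem_QQ]
      simp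
    rw [this]
    exact ff_top
  | insert a s ha ih =>
    have hpa := hp a (Finset.mem_insert_self _ _)
    have ih' := ih (fun b hb => hp b (Finset.mem_insert_of_mem hb))
      (fun b hb c hc hbc => hn b (Finset.mem_insert_of_mem hb) c (Finset.mem_insert_of_mem hc) hbc)
      (fun b hb => hff b (Finset.mem_insert_of_mem hb))
    refine ff_of_colon (I := QQ h k s) (K := PI (h a) k) (k := lin (h a)) ?_ ?_ ih'
      (hff a (Finset.mem_insert_self _ _))
    · intro f
      rw [QQ_insert]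
      constructor
      · rintro ⟨-, h2⟩
        rw [mem_QQ] at h2 ⊢
        intro b hb
        rcases (hp b (Finset.mem_insert_of_mem hb)).mem_or_mem (h2 b hb) with h3 | h3
        · exact absurd h3 (hn b (Finset.mem_insert_of_mem hb) a (Finset.mem_insert_self _ _)
            (fun e => ha (e ▸ hb)))
        · exact h3
      · intro h2
        exact ⟨Ideal.mul_mem_right _ _ (lin_mem_left _ _), Ideal.mul_mem_left _ _ h2⟩
    · intro f
      constructor
      · intro hf
        unfold PI at hf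
        rw [Ideal.mem_span_pair] at hf
        obtain ⟨α, β, hαβ⟩ := hf
        refine ⟨α, ?_⟩
        have e : f - lin (h a) * α = β * lin k := by rw [← hαβ]; ring
        rw [e, QQ_insert, mem_QQ]
        exact ⟨Ideal.mul_mem_left _ _ (lin_mem_right _ _),
          fun b _ => Ideal.mul_mem_left _ _ (lin_mem_right _ _)⟩
      · rintro ⟨α, h1⟩
        rw [QQ_insert] at h1
        have h2 := Ideal.add_mem _ h1.1 (Ideal.mul_mem_right α _ (lin_mem_left (h a) k))
        simpa using h2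

theorem exists_X_notMem {s t u v : Fin 4 → ℚ} (hdet : (rows s t u v).det ≠ 0) :
    ∃ i : Fin 4, (X i : R4) ∉ PI u v := by
  by_contra hcon
  push Not at hcon
  apply lin_notMem hdet
  unfold lin
  exact Ideal.sum_mem _ fun j _ => Ideal.mul_mem_left _ _ (hcon j)

theorem QQ_sat {s : Finset ℕ}
    (hp : ∀ a ∈ s, (PI (h a) k).IsPrime) (hX : ∀ a ∈ s, ∃ i : Fin 4, (X i : R4) ∉ PI (h a) k)
    (f : R4) (hf : ∀ i : Fin 4, X i * f ∈ QQ h k s) : f ∈ QQ h k s := by
  rw [mem_QQ]
  intro a ha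
  obtain ⟨i, hi⟩ := hX a ha
  have h1 := hf i
  rw [mem_QQ] at h1
  rcases (hp a ha).mem_or_mem (h1 a ha) with h2 | h2
  · exact absurd h2 hi
  · exact h2

/-- union of the lines indexed by a list of pairs of planes -/
noncomputable def JE (L : ℕ → Fin 4 → ℚ) (E : List (ℕ × ℕ)) : Ideal R4 :=
  ⨅ p ∈ E, PI (L p.1) (L p.2)

theorem mem_JE {L : ℕ → Fin 4 → ℚ} {E : List (ℕ × ℕ)} {f : R4} :
    f ∈ JE L E ↔ ∀ p ∈ E, f ∈ PI (L p.1) (L p.2) := by
  unfold JE
  simp only [Submodule.mem_iInf]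

theorem JE_colon {L : ℕ → Fin 4 → ℚ} {E : List (ℕ × ℕ)} {k : R4}
    (hp : ∀ p ∈ E, (PI (L p.1) (L p.2)).IsPrime)
    (hk : ∀ p ∈ E, k ∉ PI (L p.1) (L p.2)) (f : R4) (hf : k * f ∈ JE L E) : f ∈ JE L E := by
  rw [mem_JE] at hf ⊢
  intro p hpE
  rcases (hp p hpE).mem_or_mem (hf p hpE) with h2 | h2
  · exact absurd h2 (hk p hpE)
  · exact h2

end Pool.Agent.Work.MP_7f7c16_ag
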